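import Pool.Agent.Lib.MP_798203_nt.WeylConv

/-! Wall's theorem: rational multiples of a normal number are normal. -/

namespace MP798203

open Real Finset Filter Topology

lemma weyl_int {r : ℕ} [NeZero r] (hr : 2 ≤ r) {x : ℝ} (hx : IsNormal r x) {g : ℤ}
    (hg : g ≠ 0) :
    Tendsto (fun N : ℕ => ‖∑ n ∈ range N, ee (g * ((r:ℝ) ^ n * x))‖ / N) atTop (𝓝 0) := by
  have h1 := weyl_of_normal hr hx (h := g.natAbs) (by omega)
  refine h1.congr (fun N => ?_)
  congr 1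
  rcases Int.natAbs_eq g with h | h
  · have : (g:ℝ) = (g.natAbs : ℝ) := by
      rw [← Int.cast_natCast]; exact_mod_cast h
    rw [this]
  · have h2 : (g:ℝ) = -(g.natAbs : ℝ) := by
      rw [← Int.cast_natCast]; exact_mod_cast h
    have h3 : ∀ n, ee (g * ((r:ℝ) ^ n * x)) = ee (-((g.natAbs : ℝ) * ((r:ℝ) ^ n * x))) := by
      intro n; rw [h2]; congr 1; ring
    simp_rw [h3]
    rw [norm_sum_ee_neg]

theorem normal_int_mul {r : ℕ} [NeZero r] (hr : 2 ≤ r) {x : ℝ} (hx : IsNormal r x) {g : ℤ}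
    (hg : g ≠ 0) : IsNormal r (g * x) := by
  apply normal_of_weyl hr
  intro h hh
  have h1 := weyl_int hr hx (g := h * g) (mul_ne_zero (by exact_mod_cast (by omega : h ≠ 0)) hg)
  refine h1.congr (fun N => ?_)
  congr 2
  apply Finset.sum_congr rfl
  intro n _
  congr 1
  push_cast
  ring

/-- the periodised square function -/
noncomputable def QQ (r m K h : ℕ) (z : ℝ) : ℝ :=
  ∑ v ∈ range m, ‖∑ k ∈ range K, ee (h * (r:ℝ) ^ k * (z + v) / m)‖ ^ 2

lemma QQ_eq (r m K h : ℕ) (z : ℝ) :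
    ((QQ r m K h z : ℝ) : ℂ) = ∑ k ∈ range K, ∑ l ∈ range K,
      ∑ v ∈ range m, ee (h * ((r:ℝ) ^ k - (r:ℝ) ^ l) * (z + v) / m) := by
  unfold QQ
  push_cast
  have h1 : ∀ v ∈ range m, ((‖∑ k ∈ range K, ee (h * (r:ℝ) ^ k * (z + v) / m)‖ : ℂ)) ^ 2
      = ∑ k ∈ range K, ∑ l ∈ range K, ee (h * ((r:ℝ) ^ k - (r:ℝ) ^ l) * (z + v) / m) := by
    intro v _
    rw [← Complex.mul_conj', map_sum, Finset.sum_mul_sum]
    apply Finset.sum_congr rfl
    intro k _
    apply Finset.sum_congr rfl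
    intro l _
    rw [← ee_sub]
    congr 1
    ring
  rw [Finset.sum_congr rfl h1, Finset.sum_comm]
  apply Finset.sum_congr rfl
  intro k _
  rw [Finset.sum_comm]

lemma off_diag {r : ℕ} [NeZero r] (hr : 2 ≤ r) {x : ℝ} (hx : IsNormal r x) {m : ℕ} (hm : 0 < m)
    {h : ℕ} (hh : 1 ≤ h) {k l : ℕ} (hkl : k ≠ l) :
    Tendsto (fun N : ℕ => (∑ n ∈ range N, ∑ v ∈ range m,
      ee (h * ((r:ℝ) ^ k - (r:ℝ) ^ l) * ((r:ℝ) ^ n * x + v) / m)) / N) atTop (𝓝 0) := by
  have hm' : (0:ℝ) < m := by exact_mod_cast hm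
  set D : ℤ := h * ((r:ℤ) ^ k - (r:ℤ) ^ l) with hD
  have hD0 : D ≠ 0 := by
    rw [hD]
    apply mul_ne_zero (by exact_mod_cast (by omega : h ≠ 0))
    rw [sub_ne_zero]
    intro heq
    apply hkl
    have h1 : r ^ k = r ^ l := by exact_mod_cast heq
    exact Nat.pow_right_injective hr h1
  have hDr : (h:ℝ) * ((r:ℝ) ^ k - (r:ℝ) ^ l) = (D:ℝ) := by rw [hD]; push_cast; ring
  have h1 : ∀ n : ℕ, ∑ v ∈ range m, ee (h * ((r:ℝ) ^ k - (r:ℝ) ^ l) * ((r:ℝ) ^ n * x + v) / m)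
      = ee (D * ((r:ℝ) ^ n * x) / m) * ∑ v ∈ range m, ee (D * v / m) := by
    intro n
    rw [Finset.mul_sum]
    apply Finset.sum_congr rfl
    intro v _
    rw [← ee_add, hDr]
    congr 1
    ring
  simp_rw [h1]
  by_cases hdvd : (m:ℤ) ∣ D
  · obtain ⟨g, hg⟩ := hdvd
    have hg0 : g ≠ 0 := by
      rintro rfl
      rw [mul_zero] at hg
      exact hD0 hg
    have h2 := weyl_int hr hx hg0
    rw [tendsto_zero_iff_norm_tendsto_zero]
    have h3 : ∀ N : ℕ, ‖(∑ n ∈ range N, ee (D * ((r:ℝ) ^ n * x) / m) * ∑ v ∈ range m, ee (D * v / m))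
        / (N:ℂ)‖ = (‖∑ n ∈ range N, ee (g * ((r:ℝ) ^ n * x))‖ / N)
          * ‖∑ v ∈ range m, ee (D * v / m)‖ := by
      intro N
      rw [← Finset.sum_mul, norm_div, norm_mul, Complex.norm_natCast]
      have h4 : ∀ n : ℕ, ee (D * ((r:ℝ) ^ n * x) / m) = ee (g * ((r:ℝ) ^ n * x)) := by
        intro n
        congr 1
        rw [hg]
        push_cast
        field_simp
      simp_rw [h4]
      ring
    simp_rw [h3]
    have h5 := h2.mul_const ‖∑ v ∈ range m, ee (D * v / m)‖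
    rw [zero_mul] at h5
    exact h5
  · rw [geom_zero hm D hdvd]
    simp

/-- the average of the square function. -/
lemma QQ_avg {r : ℕ} [NeZero r] (hr : 2 ≤ r) {x : ℝ} (hx : IsNormal r x) {m : ℕ} (hm : 0 < m)
    {h : ℕ} (hh : 1 ≤ h) (K : ℕ) :
    Tendsto (fun N : ℕ => (∑ n ∈ range N, QQ r m K h ((r:ℝ) ^ n * x)) / N) atTop (𝓝 (K * m)) := by
  classical
  have h1 : Tendsto (fun N : ℕ => ∑ k ∈ range K, ∑ l ∈ range K,
      ((∑ n ∈ range N, ∑ v ∈ range m,
        ee (h * ((r:ℝ) ^ k - (r:ℝ) ^ l) * ((r:ℝ) ^ n * x + v) / m)) / (N:ℂ))) atTop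
      (𝓝 (∑ k ∈ range K, ∑ l ∈ range K, (if k = l then (m:ℂ) else 0))) := by
    apply tendsto_finsetSum
    intro k _
    apply tendsto_finsetSum
    intro l _
    split_ifs with hkl
    · subst hkl
      apply tendsto_const_nhds.congr'
      filter_upwards [eventually_gt_atTop 0] with N hN
      have : ∀ n v : ℕ, ee (h * ((r:ℝ) ^ k - (r:ℝ) ^ k) * ((r:ℝ) ^ n * x + v) / m) = 1 := by
        intro n v
        rw [sub_self, mul_zero, zero_mul, zero_div, ee_zero]
      simp_rw [this]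
      rw [Finset.sum_const, Finset.sum_const, card_range, card_range, nsmul_eq_mul, nsmul_eq_mul,
        mul_one, mul_comm, mul_div_assoc, div_self, mul_one]
      exact_mod_cast hN.ne'
    · exact off_diag hr hx hm hh hkl
  have h2 : ∑ k ∈ range K, ∑ l ∈ range K, (if k = l then (m:ℂ) else 0) = ((K * m : ℝ) : ℂ) := by
    have : ∀ k ∈ range K, ∑ l ∈ range K, (if k = l then (m:ℂ) else 0) = m := by
      intro k hk
      rw [Finset.sum_ite_eq, if_pos hk]
    rw [Finset.sum_congr rfl this, Finset.sum_const, card_range, nsmul_eq_mul]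
    push_cast
    rfl
  rw [h2] at h1
  have h3 := (Complex.continuous_re.tendsto _).comp h1
  rw [Complex.ofReal_re] at h3
  refine h3.congr (fun N => ?_)
  have h4 : ∑ k ∈ range K, ∑ l ∈ range K,
      ((∑ n ∈ range N, ∑ v ∈ range m,
        ee (h * ((r:ℝ) ^ k - (r:ℝ) ^ l) * ((r:ℝ) ^ n * x + v) / m)) / (N:ℂ))
      = (((∑ n ∈ range N, QQ r m K h ((r:ℝ) ^ n * x)) / N : ℝ) : ℂ) := by
    push_cast
    simp_rw [QQ_eq]
    have h5 : ∀ k ∈ range K, ∑ l ∈ range K, ((∑ n ∈ range N, ∑ v ∈ range m,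
        ee (h * ((r:ℝ) ^ k - (r:ℝ) ^ l) * ((r:ℝ) ^ n * x + v) / m)) / (N:ℂ))
        = (∑ n ∈ range N, ∑ l ∈ range K, ∑ v ∈ range m,
        ee (h * ((r:ℝ) ^ k - (r:ℝ) ^ l) * ((r:ℝ) ^ n * x + v) / m)) / (N:ℂ) := by
      intro k _
      rw [← Finset.sum_div, Finset.sum_comm]
    rw [Finset.sum_congr rfl h5, ← Finset.sum_div, Finset.sum_comm]
  simp only [Function.comp_apply]
  rw [h4, Complex.ofReal_re]

lemma shift_sum (f : ℕ → ℂ) (hf : ∀ n, ‖f n‖ ≤ 1) (N k : ℕ) :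
    ‖∑ n ∈ range N, f (n + k) - ∑ n ∈ range N, f n‖ ≤ 2 * k := by
  induction k with
  | zero => simp
  | succ k ih =>
    have h1 : ∑ n ∈ range N, f (n + (k + 1)) - ∑ n ∈ range N, f (n + k) = f (N + k) - f k := by
      have h2 := Finset.sum_range_succ (fun n => f (n + k)) N
      have h3 := Finset.sum_range_succ' (fun n => f (n + k)) N
      have h4 : ∑ n ∈ range N, f (n + 1 + k) = ∑ n ∈ range N, f (n + (k + 1)) := by
        apply Finset.sum_congr rfl
        intro n _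
        congr 1
        ring
      rw [h4] at h3
      rw [h2] at h3
      simp only [zero_add] at h3
      linear_combination -h3
    have h5 : ∑ n ∈ range N, f (n + (k + 1)) - ∑ n ∈ range N, f n
        = (∑ n ∈ range N, f (n + (k + 1)) - ∑ n ∈ range N, f (n + k))
          + (∑ n ∈ range N, f (n + k) - ∑ n ∈ range N, f n) := by ring
    rw [h5, h1]
    refine (norm_add_le _ _).trans ?_
    have h6 := norm_sub_le (f (N + k)) (f k)
    have h7 := hf (N + k)
    have h8 := hf k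
    push_cast
    linarith

theorem normal_div {r : ℕ} [NeZero r] (hr : 2 ≤ r) {x : ℝ} (hx : IsNormal r x) {m : ℕ}
    (hm : 0 < m) : IsNormal r (x / m) := by
  have hm' : (0:ℝ) < m := by exact_mod_cast hm
  apply normal_of_weyl hr
  intro h hh
  rw [Metric.tendsto_atTop']
  intro ε hε
  -- choose K
  obtain ⟨K, hK⟩ := exists_nat_gt (8 * m / ε ^ 2)
  have hKpos : (0:ℝ) < K := lt_of_le_of_lt (by positivity) hK
  have h1 := QQ_avg hr hx hm hh K
  have h2 : ∀ᶠ N : ℕ in atTop, (∑ n ∈ range N, QQ r m K h ((r:ℝ) ^ n * x)) / N < 2 * (K * m) := by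
    apply h1.eventually (gt_mem_nhds _)
    have : 0 < (K:ℝ) * m := by positivity
    linarith
  obtain ⟨N0, hN0⟩ := eventually_atTop.mp h2
  obtain ⟨N1, hN1⟩ := exists_nat_gt (4 * K / ε)
  refine ⟨max N0 N1 + 1, fun N hN => ?_⟩
  have hNN0 : N0 ≤ N := by have := le_max_left N0 N1; omega
  have hNN1 : N1 ≤ N := by have := le_max_right N0 N1; omega
  have hNpos : (0:ℝ) < N := by exact_mod_cast (by omega : 0 < N)
  have h3 := hN0 N hNN0
  rw [div_lt_iff₀ hNpos] at h3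
  set f : ℕ → ℂ := fun n => ee (h * ((r:ℝ) ^ n * (x / m))) with hf
  have hf1 : ∀ n, ‖f n‖ ≤ 1 := fun n => (norm_ee _).le
  -- lower bound of the square function
  have h4 : ∀ n, ‖∑ k ∈ range K, f (n + k)‖ ^ 2 ≤ QQ r m K h ((r:ℝ) ^ n * x) := by
    intro n
    unfold QQ
    have h5 := Finset.single_le_sum (s := range m)
      (f := fun v : ℕ => ‖∑ k ∈ range K, ee (h * (r:ℝ) ^ k * ((r:ℝ) ^ n * x + v) / m)‖ ^ 2)
      (fun _ _ => by positivity) (mem_range.mpr hm)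
    refine le_trans (le_of_eq ?_) h5
    congr 2
    apply Finset.sum_congr rfl
    intro k _
    simp only [hf]
    congr 1
    rw [pow_add]
    push_cast
    ring
  -- Cauchy–Schwarz
  have h6 : ‖∑ n ∈ range N, ∑ k ∈ range K, f (n + k)‖ ^ 2 ≤ N * (2 * (K * m) * N) := by
    have h7 : ‖∑ n ∈ range N, ∑ k ∈ range K, f (n + k)‖ ^ 2
        ≤ (∑ n ∈ range N, ‖∑ k ∈ range K, f (n + k)‖) ^ 2 := by
      apply pow_le_pow_left₀ (norm_nonneg _) (norm_sum_le _ _)
    have h8 := sq_sum_le_card_mul_sum_sq (s := range N)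
      (f := fun n => ‖∑ k ∈ range K, f (n + k)‖)
    rw [card_range] at h8
    have h9 : ∑ n ∈ range N, ‖∑ k ∈ range K, f (n + k)‖ ^ 2
        ≤ ∑ n ∈ range N, QQ r m K h ((r:ℝ) ^ n * x) := Finset.sum_le_sum (fun n _ => h4 n)
    calc _ ≤ _ := h7
      _ ≤ _ := h8
      _ ≤ N * (2 * (K * m) * N) := by
          apply mul_le_mul_of_nonneg_left _ hNpos.le
          linarith
  have h10 : ‖∑ n ∈ range N, ∑ k ∈ range K, f (n + k)‖ ≤ ε / 2 * K * N := by
    apply le_of_sq_le_sq _ (by positivity)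
    refine h6.trans ?_
    have h11 : 8 * (m:ℝ) < ε ^ 2 * K := by
      rw [div_lt_iff₀ (by positivity)] at hK
      linarith
    have h12 : (N:ℝ) * (2 * (K * m) * N) = (K * N ^ 2 / 4) * (8 * m) := by ring
    have h13 : (ε / 2 * K * N) ^ 2 = (K * N ^ 2 / 4) * (ε ^ 2 * K) := by ring
    rw [h12, h13]
    apply mul_le_mul_of_nonneg_left h11.le (by positivity)
  have h14 : ‖∑ k ∈ range K, (∑ n ∈ range N, f (n + k) - ∑ n ∈ range N, f n)‖ ≤ 2 * K * K := by
    refine (norm_sum_le _ _).trans ?_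
    have h15 : ∀ k ∈ range K, ‖∑ n ∈ range N, f (n + k) - ∑ n ∈ range N, f n‖ ≤ 2 * K := by
      intro k hk
      have h16 := shift_sum f hf1 N k
      have h17 : (k:ℝ) ≤ K := by exact_mod_cast (mem_range.mp hk).le
      linarith
    refine (Finset.sum_le_sum h15).trans (le_of_eq ?_)
    rw [Finset.sum_const, card_range, nsmul_eq_mul]
    ring
  have h18 : (K:ℂ) * ∑ n ∈ range N, f n = ∑ n ∈ range N, ∑ k ∈ range K, f (n + k)
      - ∑ k ∈ range K, (∑ n ∈ range N, f (n + k) - ∑ n ∈ range N, f n) := by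
    rw [Finset.sum_sub_distrib, Finset.sum_const, card_range, nsmul_eq_mul,
      Finset.sum_comm (s := range N)]
    ring
  have h19 : (K:ℝ) * ‖∑ n ∈ range N, f n‖ ≤ ε / 2 * K * N + 2 * K * K := by
    have h20 : ‖(K:ℂ) * ∑ n ∈ range N, f n‖ = (K:ℝ) * ‖∑ n ∈ range N, f n‖ := by
      rw [norm_mul, Complex.norm_natCast]
    rw [← h20, h18]
    refine (norm_sub_le _ _).trans ?_
    linarith
  have h21 : ‖∑ n ∈ range N, f n‖ ≤ ε / 2 * N + 2 * K := by
    have h22 : ε / 2 * K * N + 2 * K * K = K * (ε / 2 * N + 2 * K) := by ring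
    rw [h22] at h19
    exact le_of_mul_le_mul_left h19 hKpos
  have h23 : 4 * (K:ℝ) < ε * N := by
    have h24 : 4 * (K:ℝ) / ε < N := lt_of_lt_of_le hN1 (by exact_mod_cast hNN1)
    rw [div_lt_iff₀ hε] at h24
    linarith
  rw [dist_zero_right, Real.norm_eq_abs, abs_of_nonneg (by positivity), div_lt_iff₀ hNpos]
  linarith

/-- Wall's theorem. -/
theorem wall {r : ℕ} [NeZero r] (hr : 2 ≤ r) {x : ℝ} (hx : IsNormal r x) {q : ℚ}
    (hq : q ≠ 0) : IsNormal r (q * x) := by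
  have h1 := normal_div hr hx q.den_pos
  have h2 := normal_int_mul hr h1 (g := q.num) (Rat.num_ne_zero.mpr hq)
  have h3 : (q.num : ℝ) * (x / q.den) = q * x := by
    have : (q:ℝ) = q.num / q.den := by exact_mod_cast (Rat.num_div_den q).symm
    rw [this]; ring
  rw [h3] at h2
  exact h2

end MP798203
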