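import Pool.Agent.Lib.MP_798203_nt.Irr

/-! One block: random noise makes all the exponential sums over the block small. -/

namespace MP798203

open Real Finset

/-- the position in the circle after noise -/
noncomputable def zz (r : ℕ) {H q : ℕ} (w0 : ℝ) (δ : ℕ → ℝ) (ω : Fin H → Fin q) : ℝ :=
  w0 + ∑ i : Fin H, if (ω i : ℕ) = 0 then δ i / (r:ℝ) ^ ((i:ℕ) + 1) else 0

lemma sum_fin_ite {q : ℕ} (hq : 1 ≤ q) (z : ℂ) :
    ∑ a : Fin q, (if (a : ℕ) = 0 then z else 1) = (q : ℂ) - 1 + z := by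
  obtain ⟨k, rfl⟩ : ∃ k, q = k + 1 := ⟨q - 1, by omega⟩
  rw [Fin.sum_univ_succ]
  simp
  ring

lemma corr_eq {r H q : ℕ} (hq : 1 ≤ q) (w0 : ℝ) (δ : ℕ → ℝ) (c : ℝ) :
    ‖∑ ω : Fin H → Fin q, ee (c * zz r w0 δ ω)‖
      = ∏ i : Fin H, ‖((q : ℂ) - 1 + ee (c * (δ i / (r:ℝ) ^ ((i:ℕ) + 1))))‖ := by
  have h1 : ∀ ω : Fin H → Fin q, ee (c * zz r w0 δ ω)
      = ee (c * w0) * ∏ i : Fin H,
        (if (ω i : ℕ) = 0 then ee (c * (δ i / (r:ℝ) ^ ((i:ℕ) + 1))) else 1) := by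
    intro ω
    unfold zz
    rw [mul_add, ee_add, Finset.mul_sum, ee_sum]
    congr 1
    apply Finset.prod_congr rfl
    intro i _
    split_ifs with h
    · rfl
    · rw [mul_zero, ee_zero]
  simp_rw [h1]
  rw [← Finset.mul_sum, norm_mul, norm_ee, one_mul]
  have h2 := Finset.prod_univ_sum (fun _ : Fin H => (Finset.univ : Finset (Fin q)))
    (fun i a => if (a : ℕ) = 0 then ee (c * (δ i / (r:ℝ) ^ ((i:ℕ) + 1))) else 1)
  rw [Fintype.piFinset_univ] at h2
  rw [← h2, norm_prod]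
  apply Finset.prod_congr rfl
  intro i _
  rw [sum_fin_ite hq]

lemma prod_bound {H q : ℕ} {θ : ℝ} (h0 : 0 ≤ θ) (h1 : θ ≤ 1) (a : Fin H → ℝ)
    (ha0 : ∀ i, 0 ≤ a i) (ha : ∀ i, a i ≤ q) (T : Finset (Fin H)) (hT : ∀ i ∈ T, a i ≤ q * θ)
    {G : ℕ} (hG : G ≤ T.card) : ∏ i, a i ≤ (q:ℝ) ^ H * θ ^ G := by
  classical
  calc ∏ i, a i ≤ ∏ i : Fin H, ((q:ℝ) * (if i ∈ T then θ else 1)) := by
        apply Finset.prod_le_prod
        · intro i _; exact ha0 i
        · intro i _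
          split_ifs with h
          · exact hT i h
          · simpa using ha i
    _ = (q:ℝ) ^ H * θ ^ T.card := by
        rw [Finset.prod_mul_distrib, Finset.prod_const, Finset.card_univ, Fintype.card_fin]
        congr 1
        rw [Finset.prod_ite, Finset.prod_const, Finset.prod_const_one, mul_one]
        congr 1
        simp
    _ ≤ (q:ℝ) ^ H * θ ^ G := by
        apply mul_le_mul_of_nonneg_left _ (by positivity)
        exact pow_le_pow_of_le_one h0 h1 hG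

/-- the data attached to `β` which bounds the correlations at distance `D`. -/
def Good (r : ℕ) (G : ℕ) (β : ℝ) (D : ℕ) : Prop :=
  ∃ T : Finset ℕ, G ≤ T.card ∧ (∀ s ∈ T, Far (1 / (2 * r)) (β * (r:ℝ) ^ s)) ∧
    ∃ K J : ℕ, T ⊆ Finset.range K ∧ K + J ≤ D ∧ 4 * r * |β| ≤ (r:ℝ) ^ J

lemma Good.mono {r G : ℕ} {β : ℝ} {D D' : ℕ} (h : Good r G β D) (hD : D ≤ D') : Good r G β D' := by
  obtain ⟨T, h1, h2, K, J, h3, h4, h5⟩ := h
  exact ⟨T, h1, h2, K, J, h3, h4.trans hD, h5⟩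

lemma exists_good {r : ℕ} (hr : 2 ≤ r) (G : ℕ) {β : ℝ} (hβ : Irrational β) :
    ∃ D, Good r G β D := by
  obtain ⟨K, T, hT, hG, hF⟩ := irr_count hr hβ G
  have hr' : (1:ℝ) < r := by exact_mod_cast (by omega : 1 < r)
  obtain ⟨J, hJ⟩ := pow_unbounded_of_one_lt (4 * r * |β|) hr'
  exact ⟨K + J, T, hG, hF, K, J, hT, le_rfl, hJ.le⟩

lemma exists_good_finset {r : ℕ} (hr : 2 ≤ r) (G : ℕ) (B : Finset ℝ)
    (hB : ∀ β ∈ B, Irrational β) : ∃ D, ∀ β ∈ B, Good r G β D := by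
  classical
  induction B using Finset.induction_on with
  | empty => exact ⟨0, by simp⟩
  | insert b B hb ih =>
    obtain ⟨D1, h1⟩ := ih (fun β hβ => hB β (Finset.mem_insert_of_mem hβ))
    obtain ⟨D2, h2⟩ := exists_good hr G (hB b (Finset.mem_insert_self _ _))
    refine ⟨max D1 D2, ?_⟩
    intro β hβ
    rw [Finset.mem_insert] at hβ
    rcases hβ with rfl | hβ
    · exact h2.mono (le_max_right _ _)
    · exact (h1 β hβ).mono (le_max_left _ _)

lemma corr_far {r H q : ℕ} (hr : 2 ≤ r) (hq : 2 ≤ q) (w0 : ℝ) (δ : ℕ → ℝ)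
    (hδ : ∀ i, δ i = 1 ∨ δ i = -1) {G D : ℕ} {β : ℝ} (hgood : Good r G β D)
    {p p' : ℕ} (hp : p < H) (hpp : p' + D ≤ p) :
    ‖∑ ω : Fin H → Fin q, ee (β * ((r:ℝ) ^ p - (r:ℝ) ^ p') * zz r w0 δ ω)‖
      ≤ (q:ℝ) ^ H * (theta q (1 / (4 * r))) ^ G := by
  classical
  obtain ⟨T, hG, hF, K, J, hTK, hKJ, hJ⟩ := hgood
  have hr' : (2:ℝ) ≤ r := by exact_mod_cast hr
  have hr0 : (0:ℝ) < r := by linarith
  rw [corr_eq (by omega)]
  -- the image of T
  set f : ℕ → Fin H := fun s => ⟨p - 1 - s, by omega⟩ with hf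
  set T' : Finset (Fin H) := T.image f with hT'
  have hcard : T'.card = T.card := by
    apply Finset.card_image_of_injOn
    intro a ha b hb hab
    have ha' := Finset.mem_range.mp (hTK ha)
    have hb' := Finset.mem_range.mp (hTK hb)
    have : p - 1 - a = p - 1 - b := by
      have := congrArg Fin.val hab
      simpa [hf] using this
    omega
  apply prod_bound (theta_nonneg _ _) (theta_lt_one hq (by positivity)).le _ _ _ T'
  · intro i hi
    rw [hT', Finset.mem_image] at hi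
    obtain ⟨s, hs, rfl⟩ := hi
    have hsK := Finset.mem_range.mp (hTK hs)
    apply norm_avg_le hq (by positivity)
    have hi1 : ((f s : Fin H) : ℕ) + 1 = p - s := by
      simp only [hf]; omega
    rw [hi1]
    have hmain : Far (1 / (4 * (r:ℝ))) (β * ((r:ℝ) ^ p - (r:ℝ) ^ p') * (1 / (r:ℝ) ^ (p - s))) := by
      have e1 : β * ((r:ℝ) ^ p - (r:ℝ) ^ p') * (1 / (r:ℝ) ^ (p - s))
          = β * (r:ℝ) ^ s - β * (r:ℝ) ^ p' / (r:ℝ) ^ (p - s) := by
        have : (r:ℝ) ^ p = (r:ℝ) ^ s * (r:ℝ) ^ (p - s) := by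
          rw [← pow_add]; congr 1; omega
        rw [this]
        field_simp
      rw [e1]
      have e2 : |β * (r:ℝ) ^ p' / (r:ℝ) ^ (p - s)| ≤ 1 / (4 * r) := by
        rw [abs_div, abs_mul, abs_of_pos (by positivity : (0:ℝ) < (r:ℝ) ^ p'),
          abs_of_pos (by positivity : (0:ℝ) < (r:ℝ) ^ (p - s)),
          div_le_div_iff₀ (by positivity) (by positivity)]
        have : (r:ℝ) ^ (p' + J) ≤ (r:ℝ) ^ (p - s) := by
          apply pow_le_pow_right₀ (by linarith)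
          omega
        rw [pow_add] at this
        have h3 : 0 < (r:ℝ) ^ p' := by positivity
        nlinarith
      have e3 := (hF s hs).perturb e2
      have e4 : (1:ℝ) / (2 * r) - 1 / (4 * r) = 1 / (4 * r) := by field_simp; norm_num
      rw [e4] at e3
      exact e3
    rcases hδ (f s : ℕ) with h | h
    · rw [h]; exact hmain
    · rw [h]
      have := hmain.neg
      have e5 : -(β * ((r:ℝ) ^ p - (r:ℝ) ^ p') * (1 / (r:ℝ) ^ (p - s)))
        = β * ((r:ℝ) ^ p - (r:ℝ) ^ p') * (-1 / (r:ℝ) ^ (p - s)) := by ring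
      rwa [e5] at this
  · rw [hcard]; exact hG
  · intro i; exact norm_nonneg _
  · intro i; exact norm_avg_le_one (by omega) _

end MP798203
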