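import Pool.Agent.Lib.MP_798203_nt.Block

/-! Second moment of the block sums and existence of a good noise pattern. -/

namespace MP798203

open Real Finset

lemma corr_trivial {r H q : ℕ} (w0 : ℝ) (δ : ℕ → ℝ) (c : ℝ) :
    ‖∑ ω : Fin H → Fin q, ee (c * zz r w0 δ ω)‖ ≤ (q:ℝ) ^ H := by
  refine (norm_sum_le _ _).trans ?_
  simp only [norm_ee]
  simp

lemma corr_far' {r H q : ℕ} (hr : 2 ≤ r) (hq : 2 ≤ q) (w0 : ℝ) (δ : ℕ → ℝ)
    (hδ : ∀ i, δ i = 1 ∨ δ i = -1) {G D : ℕ} {β : ℝ} (hgood : Good r G β D)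
    {p p' : ℕ} (hp : p < H) (hp' : p' < H) (hpp : p' + D ≤ p ∨ p + D ≤ p') :
    ‖∑ ω : Fin H → Fin q, ee (β * ((r:ℝ) ^ p - (r:ℝ) ^ p') * zz r w0 δ ω)‖
      ≤ (q:ℝ) ^ H * (theta q (1 / (4 * r))) ^ G := by
  rcases hpp with h | h
  · exact corr_far hr hq w0 δ hδ hgood hp h
  · have h1 := corr_far hr hq w0 δ hδ hgood hp' h
    have h2 : ∀ ω : Fin H → Fin q, ee (β * ((r:ℝ) ^ p - (r:ℝ) ^ p') * zz r w0 δ ω)
        = (starRingEnd ℂ) (ee (β * ((r:ℝ) ^ p' - (r:ℝ) ^ p) * zz r w0 δ ω)) := by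
      intro ω
      rw [← ee_neg]
      congr 1
      ring
    simp_rw [h2]
    rw [← map_sum, Complex.norm_conj]
    exact h1

lemma second_moment {r H q : ℕ} (hr : 2 ≤ r) (hq : 2 ≤ q) (w0 : ℝ) (δ : ℕ → ℝ)
    (hδ : ∀ i, δ i = 1 ∨ δ i = -1) {G D : ℕ} {β : ℝ} (hgood : Good r G β D) :
    ∑ ω : Fin H → Fin q, ‖∑ p ∈ range H, ee (β * (r:ℝ) ^ p * zz r w0 δ ω)‖ ^ 2
      ≤ (q:ℝ) ^ H * ((H:ℝ) ^ 2 * (theta q (1 / (4 * r))) ^ G + 2 * D * H) := by
  classical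
  set θ := theta q (1 / (4 * r)) with hθ
  have hθ0 : 0 ≤ θ := theta_nonneg _ _
  have h1 : ((∑ ω : Fin H → Fin q, ‖∑ p ∈ range H, ee (β * (r:ℝ) ^ p * zz r w0 δ ω)‖ ^ 2 : ℝ) : ℂ)
      = ∑ p ∈ range H, ∑ p' ∈ range H,
        ∑ ω : Fin H → Fin q, ee (β * ((r:ℝ) ^ p - (r:ℝ) ^ p') * zz r w0 δ ω) := by
    push_cast
    have h2 : ∀ ω : Fin H → Fin q,
        ((‖∑ p ∈ range H, ee (β * (r:ℝ) ^ p * zz r w0 δ ω)‖ : ℂ)) ^ 2
        = ∑ p ∈ range H, ∑ p' ∈ range H, ee (β * ((r:ℝ) ^ p - (r:ℝ) ^ p') * zz r w0 δ ω) := by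
      intro ω
      rw [← Complex.mul_conj']
      rw [map_sum, Finset.sum_mul_sum]
      apply Finset.sum_congr rfl
      intro p _
      apply Finset.sum_congr rfl
      intro p' _
      rw [← ee_sub]
      congr 1
      ring
    simp_rw [h2]
    rw [Finset.sum_comm]
    apply Finset.sum_congr rfl
    intro p _
    rw [Finset.sum_comm]
  have h3 : 0 ≤ ∑ ω : Fin H → Fin q, ‖∑ p ∈ range H, ee (β * (r:ℝ) ^ p * zz r w0 δ ω)‖ ^ 2 :=
    Finset.sum_nonneg (fun _ _ => by positivity)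
  have h4 : ∑ ω : Fin H → Fin q, ‖∑ p ∈ range H, ee (β * (r:ℝ) ^ p * zz r w0 δ ω)‖ ^ 2
      = ‖∑ p ∈ range H, ∑ p' ∈ range H,
        ∑ ω : Fin H → Fin q, ee (β * ((r:ℝ) ^ p - (r:ℝ) ^ p') * zz r w0 δ ω)‖ := by
    rw [← h1, Complex.norm_real, Real.norm_eq_abs, abs_of_nonneg h3]
  rw [h4]
  refine (norm_sum_le _ _).trans ?_
  have h5 : ∀ p ∈ range H, ‖∑ p' ∈ range H,
        ∑ ω : Fin H → Fin q, ee (β * ((r:ℝ) ^ p - (r:ℝ) ^ p') * zz r w0 δ ω)‖
        ≤ (q:ℝ) ^ H * (H * θ ^ G + 2 * D) := by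
    intro p hp
    rw [mem_range] at hp
    refine (norm_sum_le _ _).trans ?_
    calc ∑ p' ∈ range H, ‖∑ ω : Fin H → Fin q, ee (β * ((r:ℝ) ^ p - (r:ℝ) ^ p') * zz r w0 δ ω)‖
        ≤ ∑ p' ∈ range H, ((q:ℝ) ^ H * θ ^ G
            + (if p' ∈ Ico (p + 1 - D) (p + D) then (q:ℝ) ^ H else 0)) := by
          apply Finset.sum_le_sum
          intro p' hp'
          rw [mem_range] at hp'
          split_ifs with h
          · have := corr_trivial (r := r) (H := H) (q := q) w0 δ (β * ((r:ℝ) ^ p - (r:ℝ) ^ p'))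
            have h6 : 0 ≤ (q:ℝ) ^ H * θ ^ G := by positivity
            linarith
          · rw [add_zero]
            apply corr_far' hr hq w0 δ hδ hgood hp hp'
            rw [mem_Ico] at h
            push Not at h
            by_cases h7 : p + 1 - D ≤ p'
            · right; exact h h7
            · left; omega
      _ ≤ (q:ℝ) ^ H * (H * θ ^ G + 2 * D) := by
          rw [Finset.sum_add_distrib, Finset.sum_const, card_range, Finset.sum_ite_mem,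
            Finset.sum_const]
          have h8 : (range H ∩ Ico (p + 1 - D) (p + D)).card ≤ 2 * D := by
            calc _ ≤ (Ico (p + 1 - D) (p + D)).card := Finset.card_le_card (Finset.inter_subset_right)
              _ ≤ 2 * D := by rw [Nat.card_Ico]; omega
          have h9 : ((range H ∩ Ico (p + 1 - D) (p + D)).card : ℝ) ≤ 2 * D := by exact_mod_cast h8
          rw [nsmul_eq_mul, nsmul_eq_mul]
          have h10 : (0:ℝ) ≤ (q:ℝ) ^ H := by positivity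
          nlinarith
  calc _ ≤ ∑ p ∈ range H, (q:ℝ) ^ H * (H * θ ^ G + 2 * D) := Finset.sum_le_sum h5
    _ = _ := by
      rw [Finset.sum_const, card_range, nsmul_eq_mul]
      ring

/-- The number of zeros, summed over all patterns. -/
lemma count_zeros {H q : ℕ} (hq : 1 ≤ q) :
    (q:ℝ) * ∑ ω : Fin H → Fin q, ((univ.filter (fun i => (ω i : ℕ) = 0)).card : ℝ)
      = H * (q:ℝ) ^ H := by
  classical
  have h1 : ∀ ω : Fin H → Fin q, ((univ.filter (fun i => (ω i : ℕ) = 0)).card : ℝ)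
      = ∑ i : Fin H, (if (ω i : ℕ) = 0 then (1:ℝ) else 0) := by
    intro ω
    rw [Finset.card_filter]
    push_cast
    rfl
  simp_rw [h1]
  rw [Finset.sum_comm, Finset.mul_sum]
  have h2 : ∀ i : Fin H, (q:ℝ) * ∑ ω : Fin H → Fin q, (if (ω i : ℕ) = 0 then (1:ℝ) else 0)
      = (q:ℝ) ^ H := by
    intro i
    have h3 : ∀ ω : Fin H → Fin q, (if (ω i : ℕ) = 0 then (1:ℝ) else 0)
        = ∏ j : Fin H, (if j = i then (if (ω j : ℕ) = 0 then (1:ℝ) else 0) else 1) := by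
      intro ω
      rw [Finset.prod_ite_eq']
      simp
    simp_rw [h3]
    have h4 := Finset.prod_univ_sum (fun _ : Fin H => (Finset.univ : Finset (Fin q)))
      (fun j a => if j = i then (if (a : ℕ) = 0 then (1:ℝ) else 0) else 1)
    rw [Fintype.piFinset_univ] at h4
    rw [← h4, ← Finset.mul_prod_erase univ _ (Finset.mem_univ i)]
    have h5 : ∑ a : Fin q, (if (a : ℕ) = 0 then (1:ℝ) else 0) = 1 := by
      obtain ⟨k, rfl⟩ : ∃ k, q = k + 1 := ⟨q - 1, by omega⟩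
      rw [Fin.sum_univ_succ]
      simp
    have h6 : ∏ x ∈ univ.erase i, ∑ j : Fin q,
        (if x = i then (if (j : ℕ) = 0 then (1:ℝ) else 0) else 1)
        = (q:ℝ) ^ (H - 1) := by
      have : ∀ x ∈ (univ : Finset (Fin H)).erase i, ∑ j : Fin q,
          (if x = i then (if (j : ℕ) = 0 then (1:ℝ) else 0) else 1) = (q:ℝ) := by
        intro x hx
        have hne := Finset.ne_of_mem_erase hx
        simp [hne]
      rw [Finset.prod_congr rfl this, Finset.prod_const, Finset.card_erase_of_mem (mem_univ _),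
        Finset.card_univ, Fintype.card_fin]
    rw [h6]
    simp only [if_true]
    rw [h5, one_mul, ← pow_succ']
    congr 1
    have := i.2
    omega
  rw [Finset.sum_congr rfl (fun i _ => h2 i), Finset.sum_const, Finset.card_univ,
    Fintype.card_fin, nsmul_eq_mul]

theorem exists_noise {r q : ℕ} (hr : 2 ≤ r) (hq : 2 ≤ q) (B : Finset ℝ)
    (hB : ∀ β ∈ B, Irrational β) {τ : ℝ} (hτ : 0 < τ) :
    ∃ H0 : ℕ, ∀ H, H0 ≤ H → ∀ (w0 : ℝ) (δ : ℕ → ℝ), (∀ i, δ i = 1 ∨ δ i = -1) →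
      ∃ ω : Fin H → Fin q,
        ((univ.filter (fun i => (ω i : ℕ) = 0)).card : ℝ) ≤ 2 * H / q ∧
        ∀ β ∈ B, ‖∑ p ∈ range H, ee (β * (r:ℝ) ^ p * zz r w0 δ ω)‖ ≤ τ * H := by
  classical
  have hr' : (2:ℝ) ≤ r := by exact_mod_cast hr
  have hq' : (2:ℝ) ≤ q := by exact_mod_cast hq
  set θ := theta q (1 / (4 * r)) with hθ
  have hθ0 : 0 ≤ θ := theta_nonneg _ _
  have hθ1 : θ < 1 := theta_lt_one hq (by positivity)
  -- choose G
  obtain ⟨G, hG⟩ : ∃ G : ℕ, θ ^ G < τ ^ 2 / (4 * (B.card + 1)) :=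
    exists_pow_lt_of_lt_one (by positivity) hθ1
  obtain ⟨D, hD⟩ := exists_good_finset hr G B hB
  obtain ⟨H1, hH1⟩ := exists_nat_gt (8 * B.card * D / τ ^ 2)
  refine ⟨H1 + 1, ?_⟩
  intro H hH w0 δ hδ
  have hHpos : (0:ℝ) < H := by
    have : 0 < H := by omega
    exact_mod_cast this
  have hH' : (H1:ℝ) ≤ H := by exact_mod_cast (by omega : H1 ≤ H)
  set Φ : (Fin H → Fin q) → ℝ := fun ω =>
    q / (2 * H) * ((univ.filter (fun i => (ω i : ℕ) = 0)).card : ℝ)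
      + ∑ β ∈ B, ‖∑ p ∈ range H, ee (β * (r:ℝ) ^ p * zz r w0 δ ω)‖ ^ 2 / (τ * H) ^ 2 with hΦ
  have hsum : ∑ ω : Fin H → Fin q, Φ ω ≤ ∑ _ω : Fin H → Fin q, (1:ℝ) := by
    rw [hΦ, Finset.sum_add_distrib, ← Finset.mul_sum, Finset.sum_comm]
    have e1 : (q:ℝ) / (2 * H) * ∑ ω : Fin H → Fin q,
        ((univ.filter (fun i => (ω i : ℕ) = 0)).card : ℝ) = (q:ℝ) ^ H / 2 := by
      have := count_zeros (H := H) (q := q) (by omega)
      have e2 : (q:ℝ) / (2 * H) * ∑ ω : Fin H → Fin q,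
        ((univ.filter (fun i => (ω i : ℕ) = 0)).card : ℝ) = (1 / (2 * H)) * ((q:ℝ) *
          ∑ ω : Fin H → Fin q, ((univ.filter (fun i => (ω i : ℕ) = 0)).card : ℝ)) := by ring
      rw [e2, this]
      field_simp
    rw [e1]
    have e3 : ∀ β ∈ B, ∑ ω : Fin H → Fin q,
        ‖∑ p ∈ range H, ee (β * (r:ℝ) ^ p * zz r w0 δ ω)‖ ^ 2 / (τ * H) ^ 2
        ≤ (q:ℝ) ^ H * (θ ^ G / τ ^ 2 + 2 * D / (τ ^ 2 * H)) := by
      intro β hβ
      rw [← Finset.sum_div, div_le_iff₀ (by positivity)]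
      refine (second_moment hr hq w0 δ hδ (hD β hβ)).trans (le_of_eq ?_)
      rw [← hθ]
      field_simp
    have e4 := Finset.sum_le_sum e3
    rw [Finset.sum_const, nsmul_eq_mul] at e4
    have e5 : ∑ _ω : Fin H → Fin q, (1:ℝ) = (q:ℝ) ^ H := by
      simp
    rw [e5]
    have e6 : (B.card : ℝ) * (θ ^ G / τ ^ 2) ≤ 1 / 4 := by
      have : θ ^ G / τ ^ 2 ≤ 1 / (4 * (B.card + 1)) := by
        rw [div_le_iff₀ (by positivity)]
        calc θ ^ G ≤ τ ^ 2 / (4 * (B.card + 1)) := hG.le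
          _ = _ := by ring
      calc (B.card : ℝ) * (θ ^ G / τ ^ 2) ≤ B.card * (1 / (4 * (B.card + 1))) :=
            mul_le_mul_of_nonneg_left this (by positivity)
        _ ≤ 1 / 4 := by
            rw [mul_one_div, div_le_div_iff₀ (by positivity) (by norm_num)]
            linarith
    have e7 : (B.card : ℝ) * (2 * D / (τ ^ 2 * H)) ≤ 1 / 4 := by
      have h8 : 8 * (B.card:ℝ) * D / τ ^ 2 ≤ H := hH1.le.trans hH'
      rw [div_le_iff₀ (by positivity)] at h8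
      rw [mul_div_assoc', div_le_iff₀ (by positivity)]
      nlinarith
    have e8 : (0:ℝ) < (q:ℝ) ^ H := by positivity
    calc (q:ℝ) ^ H / 2 + ∑ β ∈ B, ∑ ω : Fin H → Fin q,
        ‖∑ p ∈ range H, ee (β * (r:ℝ) ^ p * zz r w0 δ ω)‖ ^ 2 / (τ * H) ^ 2
        ≤ (q:ℝ) ^ H / 2 + (B.card : ℝ) * ((q:ℝ) ^ H * (θ ^ G / τ ^ 2 + 2 * D / (τ ^ 2 * H))) := by
          linarith
      _ = (q:ℝ) ^ H * (1 / 2 + ((B.card : ℝ) * (θ ^ G / τ ^ 2)
            + (B.card : ℝ) * (2 * D / (τ ^ 2 * H)))) := by ring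
      _ ≤ (q:ℝ) ^ H * 1 := by
          apply mul_le_mul_of_nonneg_left _ e8.le
          linarith
      _ = (q:ℝ) ^ H := by ring
  have hne : (univ : Finset (Fin H → Fin q)).Nonempty := by
    refine ⟨fun _ => ⟨0, by omega⟩, mem_univ _⟩
  obtain ⟨ω, -, hω⟩ := Finset.exists_le_of_sum_le hne hsum
  refine ⟨ω, ?_, ?_⟩
  · have h1 : (q:ℝ) / (2 * H) * ((univ.filter (fun i => (ω i : ℕ) = 0)).card : ℝ) ≤ 1 := by
      have h2 : 0 ≤ ∑ β ∈ B,
          ‖∑ p ∈ range H, ee (β * (r:ℝ) ^ p * zz r w0 δ ω)‖ ^ 2 / (τ * H) ^ 2 :=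
        Finset.sum_nonneg (fun _ _ => by positivity)
      simp only [hΦ] at hω
      linarith
    rw [div_mul_eq_mul_div, div_le_iff₀ (by positivity)] at h1
    rw [le_div_iff₀ (by positivity)]
    linarith
  · intro β hβ
    have h2 : ‖∑ p ∈ range H, ee (β * (r:ℝ) ^ p * zz r w0 δ ω)‖ ^ 2 / (τ * H) ^ 2 ≤ 1 := by
      have h3 := Finset.single_le_sum (f := fun β =>
        ‖∑ p ∈ range H, ee (β * (r:ℝ) ^ p * zz r w0 δ ω)‖ ^ 2 / (τ * H) ^ 2)
        (fun _ _ => by positivity) hβ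
      have h4 : 0 ≤ (q:ℝ) / (2 * H) * ((univ.filter (fun i => (ω i : ℕ) = 0)).card : ℝ) := by
        positivity
      simp only [hΦ] at hω
      linarith
    rw [div_le_one (by positivity)] at h2
    exact le_of_sq_le_sq h2 (by positivity)

end MP798203
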