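import Mathlib

/-! Normality to a base. -/

namespace MP798203

open Filter Topology

/-- `x` is normal to base `r`: in the base `r` expansion of the fractional part of `x`, every block
`w` of `k` digits occurs with asymptotic frequency `r^{-k}`. (For `k = 0` the condition is void.) -/
def IsNormal (r : ℕ) [NeZero r] (x : ℝ) : Prop :=
  ∀ (k : ℕ) (w : Fin k → Fin r),
    Tendsto (fun N : ℕ => (((Finset.range N).filter
      (fun n => ∀ i : Fin k, Real.digits (Int.fract x) r (n + i) = w i)).card : ℝ) / N)
      atTop (𝓝 ((1 / (r:ℝ)) ^ k))

end MP798203
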