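import Pool.Agent.Lib.MP_798203_nt.Weyl
import Pool.Agent.Lib.MP_798203_nt.Normal

/-! Digits in base `r`, and normality from the Weyl sums. -/

namespace MP798203

open Real Finset Filter Topology

/-- difference of `ofDigits` for sequences agreeing from `M` on -/
lemma ofDigits_sub {r : ℕ} {F F' : ℕ → Fin r} {M : ℕ} (h : ∀ n, M ≤ n → F' n = F n) :
    Real.ofDigits F' - Real.ofDigits F
      = ∑ n ∈ range M, (((F' n : ℕ) : ℝ) - ((F n : ℕ) : ℝ)) * ((r:ℝ) ^ (n + 1))⁻¹ := by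
  rw [Real.ofDigits_eq_sum_add_ofDigits F' M, Real.ofDigits_eq_sum_add_ofDigits F M]
  have h1 : (fun i => F' (i + M)) = (fun i => F (i + M)) := by
    funext i; exact h _ (by omega)
  rw [h1, add_sub_add_right_eq_sub, ← Finset.sum_sub_distrib]
  apply Finset.sum_congr rfl
  intro n _
  unfold Real.ofDigitsTerm
  ring

lemma ofDigits_lt_one {r : ℕ} (hr : 2 ≤ r) {F : ℕ → Fin r} {m : ℕ} (h : (F m : ℕ) = 0) :
    Real.ofDigits F < 1 := by
  set F' : ℕ → Fin r := fun n => if n = m then ⟨1, by omega⟩ else F n with hF'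
  have h1 : ∀ n, m + 1 ≤ n → F' n = F n := by
    intro n hn
    simp only [hF']
    rw [if_neg (by omega)]
  have h2 := ofDigits_sub h1
  rw [Finset.sum_range_succ] at h2
  have h3 : ∑ n ∈ range m, (((F' n : ℕ) : ℝ) - ((F n : ℕ) : ℝ)) * ((r:ℝ) ^ (n + 1))⁻¹ = 0 := by
    apply Finset.sum_eq_zero
    intro n hn
    rw [mem_range] at hn
    simp only [hF']
    rw [if_neg (by omega)]
    simp
  have h4 : (F' m : ℕ) = 1 := by simp [hF']
  rw [h3, h4, h] at h2
  have h5 := Real.ofDigits_le_one F'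
  have h6 : (0:ℝ) < ((r:ℝ) ^ (m + 1))⁻¹ := by
    have : (0:ℝ) < r := by exact_mod_cast (by omega : 0 < r)
    positivity
  push_cast at h2
  linarith

/-- the natural number with digits `F 0, …, F (n-1)`. -/
def AA {r : ℕ} (F : ℕ → Fin r) : ℕ → ℕ
  | 0 => 0
  | n + 1 => r * AA F n + (F n : ℕ)

lemma AA_eq {r : ℕ} (hr : 1 ≤ r) (F : ℕ → Fin r) (n : ℕ) :
    (r:ℝ) ^ n * ∑ i ∈ range n, Real.ofDigitsTerm F i = AA F n := by
  have hr0 : (0:ℝ) < r := by exact_mod_cast (by omega : 0 < r)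
  induction n with
  | zero => simp [AA]
  | succ n ih =>
    rw [Finset.sum_range_succ, mul_add, pow_succ']
    have h1 : (r:ℝ) * (r:ℝ) ^ n * ∑ i ∈ range n, Real.ofDigitsTerm F i = r * AA F n := by
      rw [← ih]; ring
    rw [h1]
    have h2 : (r:ℝ) * (r:ℝ) ^ n * Real.ofDigitsTerm F n = (F n : ℕ) := by
      unfold Real.ofDigitsTerm
      rw [pow_succ]
      field_simp
    rw [h2]
    simp [AA]

lemma pow_mul_ofDigits {r : ℕ} (hr : 1 ≤ r) (F : ℕ → Fin r) (n : ℕ) :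
    Real.ofDigits F * (r:ℝ) ^ n = AA F n + Real.ofDigits (fun i => F (i + n)) := by
  have hr0 : (0:ℝ) < r := by exact_mod_cast (by omega : 0 < r)
  rw [Real.ofDigits_eq_sum_add_ofDigits F n, add_mul, mul_comm (∑ i ∈ range n, _) _, AA_eq hr]
  congr 1
  field_simp

lemma digits_ofDigits {r : ℕ} [NeZero r] (hr : 2 ≤ r) {F : ℕ → Fin r}
    (h : ∀ n, ∃ m, n ≤ m ∧ (F m : ℕ) = 0) : Real.digits (Real.ofDigits F) r = F := by
  funext i
  unfold Real.digits
  rw [pow_mul_ofDigits (by omega)]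
  have h1 : 0 ≤ Real.ofDigits (fun j => F (j + (i + 1))) := Real.ofDigits_nonneg _
  have h2 : Real.ofDigits (fun j => F (j + (i + 1))) < 1 := by
    obtain ⟨m, hm, hm0⟩ := h (i + 1)
    apply ofDigits_lt_one hr (m := m - (i + 1))
    have : m - (i + 1) + (i + 1) = m := by omega
    simp only [this]
    exact hm0
  have h3 : ⌊(AA F (i + 1) : ℝ) + Real.ofDigits (fun j => F (j + (i + 1)))⌋₊ = AA F (i + 1) := by
    rw [Nat.floor_eq_iff (by positivity)]
    constructor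
    · linarith
    · linarith
  rw [h3]
  apply Fin.ext
  rw [Fin.val_ofNat]
  simp only [AA]
  rw [Nat.mul_add_mod]
  exact Nat.mod_eq_of_lt (F i).2

lemma digits_shift {r : ℕ} [NeZero r] {x : ℝ} (hx : 0 ≤ x) (n i : ℕ) :
    Real.digits x r (n + i) = Real.digits (Int.fract ((r:ℝ) ^ n * x)) r i := by
  unfold Real.digits
  apply Fin.ext
  rw [Fin.val_ofNat, Fin.val_ofNat]
  have h0 : 0 ≤ (r:ℝ) ^ n * x := by positivity
  have h1 : Int.fract ((r:ℝ) ^ n * x) = (r:ℝ) ^ n * x - ⌊(r:ℝ) ^ n * x⌋₊ := by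
    rw [Int.fract, natCast_floor_eq_intCast_floor h0]
  set m : ℕ := ⌊(r:ℝ) ^ n * x⌋₊ with hm
  set v : ℝ := Int.fract ((r:ℝ) ^ n * x) with hv
  have h2 : x * (r:ℝ) ^ (n + i + 1) = v * (r:ℝ) ^ (i + 1) + ((m * r ^ (i + 1) : ℕ) : ℝ) := by
    push_cast
    have : (r:ℝ) ^ (n + i + 1) = (r:ℝ) ^ n * (r:ℝ) ^ (i + 1) := by rw [← pow_add]; congr 1
    rw [this, h1]
    ring
  have hv0 : 0 ≤ v := Int.fract_nonneg _
  have h3 : m * r ^ (i + 1) = (m * r ^ i) * r := by rw [pow_succ, mul_assoc]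
  rw [h2, Nat.floor_add_natCast (by positivity), h3, Nat.add_mul_mod_self_right]

/-- the centre of the cell of the word `w`. -/
noncomputable def cw {r k : ℕ} (w : Fin k → Fin r) : ℝ :=
  ∑ i : Fin k, ((w i : ℕ) : ℝ) * ((r:ℝ) ^ ((i:ℕ) + 1))⁻¹ + 1 / (2 * (r:ℝ) ^ k)

lemma word_close {r : ℕ} [NeZero r] (hr : 2 ≤ r) {k : ℕ} (w : Fin k → Fin r) {v : ℝ}
    (hv : v ∈ Set.Ico (0:ℝ) 1) (h : ∀ i : Fin k, Real.digits v r i = w i) :
    |v - cw w| ≤ 1 / (2 * (r:ℝ) ^ k) := by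
  have hr0 : (0:ℝ) < r := by exact_mod_cast (by omega : 0 < r)
  have h1 := Real.ofDigits_digits_sum_eq (b := r) hv k
  have h2 : ∑ i ∈ range k, Real.ofDigitsTerm (Real.digits v r) i
      = ∑ i : Fin k, ((w i : ℕ) : ℝ) * ((r:ℝ) ^ ((i:ℕ) + 1))⁻¹ := by
    rw [← Fin.sum_univ_eq_sum_range]
    apply Finset.sum_congr rfl
    intro i _
    unfold Real.ofDigitsTerm
    rw [h i]
  rw [h2] at h1
  have h3 := Nat.floor_le (a := (r:ℝ) ^ k * v) (by have := hv.1; positivity)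
  have h4 := Nat.lt_floor_add_one ((r:ℝ) ^ k * v)
  rw [← h1] at h3 h4
  have hp : (0:ℝ) < (r:ℝ) ^ k := by positivity
  unfold cw
  set S := ∑ i : Fin k, ((w i : ℕ) : ℝ) * ((r:ℝ) ^ ((i:ℕ) + 1))⁻¹ with hS
  have h5 : S ≤ v := le_of_mul_le_mul_left h3 hp
  have h6 : v ≤ S + 1 / (r:ℝ) ^ k := by
    have : (r:ℝ) ^ k * v ≤ (r:ℝ) ^ k * (S + 1 / (r:ℝ) ^ k) := by
      rw [mul_add, mul_one_div_cancel hp.ne']
      exact h4.le
    exact le_of_mul_le_mul_left this hp
  have h7 : 1 / (r:ℝ) ^ k = 1 / (2 * (r:ℝ) ^ k) + 1 / (2 * (r:ℝ) ^ k) := by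
    field_simp; norm_num
  rw [abs_le]
  constructor <;> linarith

lemma dist_coe_le (x y : ℝ) (m : ℤ) : dist ((x : ℝ) : TT) ((y : ℝ) : TT) ≤ |x - m - y| := by
  rw [dist_eq_norm, ← AddCircle.coe_sub, AddCircle.norm_eq]
  simp only [inv_one, one_mul, mul_one]
  have h1 := round_le (x - y) m
  refine h1.trans (le_of_eq ?_)
  congr 1
  ring

theorem word_upper {r : ℕ} [NeZero r] (hr : 2 ≤ r) (x : ℝ)
    (hu : ∀ h : ℕ, 1 ≤ h → Tendsto (fun N : ℕ => ‖∑ n ∈ range N, ee (h * ((r:ℝ) ^ n * x))‖ / N)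
      atTop (𝓝 0)) (k : ℕ) (w : Fin k → Fin r) {η : ℝ} (hη : 0 < η) :
    ∀ᶠ N : ℕ in atTop, (((range N).filter
      (fun n => ∀ i : Fin k, Real.digits (Int.fract x) r (n + i) = w i)).card : ℝ)
        ≤ ((1 / (r:ℝ)) ^ k + η) * N := by
  have hr0 : (0:ℝ) < r := by exact_mod_cast (by omega : 0 < r)
  have h1 := ball_upper (fun n => (r:ℝ) ^ n * x) hu ((cw w : ℝ) : TT)
    (ρ := 1 / (2 * (r:ℝ) ^ k)) (by positivity) hη
    (fun n => ∀ i : Fin k, Real.digits (Int.fract x) r (n + i) = w i) (by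
      intro n hn
      have h2 : ∀ i : Fin k, Real.digits (Int.fract ((r:ℝ) ^ n * Int.fract x)) r i = w i := by
        intro i
        rw [← digits_shift (Int.fract_nonneg x) n i]
        exact hn i
      have h3 := word_close hr w ⟨Int.fract_nonneg _, Int.fract_lt_one _⟩ h2
      refine le_trans (dist_coe_le _ _ ((r:ℤ) ^ n * ⌊x⌋ + ⌊(r:ℝ) ^ n * Int.fract x⌋)) ?_
      refine le_trans (le_of_eq ?_) h3
      congr 1
      have h4 : Int.fract ((r:ℝ) ^ n * Int.fract x)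
        = (r:ℝ) ^ n * Int.fract x - ⌊(r:ℝ) ^ n * Int.fract x⌋ := rfl
      rw [h4]
      push_cast
      have h5 : (r:ℝ) ^ n * x = (r:ℝ) ^ n * ⌊x⌋ + (r:ℝ) ^ n * Int.fract x := by
        rw [← mul_add, Int.floor_add_fract]
      rw [h5]
      ring)
  have h6 : 2 * (1 / (2 * (r:ℝ) ^ k)) = (1 / (r:ℝ)) ^ k := by
    rw [one_div_pow]; field_simp
  rw [h6] at h1
  exact h1

theorem sum_words {r : ℕ} [NeZero r] (x : ℝ) (k N : ℕ) :
    ∑ w : Fin k → Fin r, (((range N).filter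
      (fun n => ∀ i : Fin k, Real.digits (Int.fract x) r (n + i) = w i)).card : ℝ) = N := by
  classical
  have h1 := Finset.card_eq_sum_card_fiberwise (s := range N)
    (t := (univ : Finset (Fin k → Fin r)))
    (f := fun n => (fun i : Fin k => Real.digits (Int.fract x) r (n + i))) (fun _ _ => by simp)
  rw [card_range] at h1
  have h2 : ∀ w : Fin k → Fin r, (range N).filter
      (fun n => ∀ i : Fin k, Real.digits (Int.fract x) r (n + i) = w i)
      = (range N).filter (fun n => (fun i : Fin k => Real.digits (Int.fract x) r (n + i)) = w) := by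
    intro w
    apply Finset.filter_congr
    intro n _
    rw [funext_iff]
  simp_rw [h2]
  exact_mod_cast h1.symm

theorem normal_of_weyl {r : ℕ} [NeZero r] (hr : 2 ≤ r) (x : ℝ)
    (hu : ∀ h : ℕ, 1 ≤ h → Tendsto (fun N : ℕ => ‖∑ n ∈ range N, ee (h * ((r:ℝ) ^ n * x))‖ / N)
      atTop (𝓝 0)) : IsNormal r x := by
  classical
  intro k w
  have hr0 : (0:ℝ) < r := by exact_mod_cast (by omega : 0 < r)
  rw [Metric.tendsto_atTop']
  intro ε hε
  set R : ℝ := (r:ℝ) ^ k with hR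
  have hRpos : 0 < R := by positivity
  have hR1 : 1 ≤ R := one_le_pow₀ (by exact_mod_cast (by omega : 1 ≤ r))
  have hη : 0 < ε / (2 * R) := by positivity
  have h1 : ∀ᶠ N : ℕ in atTop, ∀ w' : Fin k → Fin r, (((range N).filter
      (fun n => ∀ i : Fin k, Real.digits (Int.fract x) r (n + i) = w' i)).card : ℝ)
        ≤ ((1 / (r:ℝ)) ^ k + ε / (2 * R)) * N :=
    Filter.eventually_all.mpr (fun w' => word_upper hr x hu k w' hη)
  obtain ⟨N0, hN0⟩ := Filter.eventually_atTop.mp h1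
  refine ⟨N0, fun N hN => ?_⟩
  have h2 := hN0 N hN.le
  have hNpos : (0:ℝ) < N := by exact_mod_cast (by omega : 0 < N)
  have h3 := sum_words (r := r) x k N
  rw [← Finset.add_sum_erase univ _ (Finset.mem_univ w)] at h3
  have h4 : ∑ w' ∈ univ.erase w, (((range N).filter
      (fun n => ∀ i : Fin k, Real.digits (Int.fract x) r (n + i) = w' i)).card : ℝ)
      ≤ (R - 1) * (((1 / (r:ℝ)) ^ k + ε / (2 * R)) * N) := by
    refine (Finset.sum_le_sum (fun w' _ => h2 w')).trans (le_of_eq ?_)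
    rw [Finset.sum_const, nsmul_eq_mul, Finset.card_erase_of_mem (mem_univ _), Finset.card_univ,
      Fintype.card_fun, Fintype.card_fin, Fintype.card_fin]
    rw [Nat.cast_sub (Nat.one_le_pow _ _ (by omega))]
    push_cast
    rfl
  have h5 : (1 / (r:ℝ)) ^ k = 1 / R := by rw [one_div_pow]
  rw [h5] at h2 h4 ⊢
  rw [Real.dist_eq]
  set c : ℝ := (((range N).filter
      (fun n => ∀ i : Fin k, Real.digits (Int.fract x) r (n + i) = w i)).card : ℝ) with hc
  have h6 : c ≤ (1 / R + ε / (2 * R)) * N := h2 w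
  have h7 : N - (R - 1) * ((1 / R + ε / (2 * R)) * N) ≤ c := by linarith
  have h8 : ε / (2 * R) < ε := by
    rw [div_lt_iff₀ (by positivity)]
    nlinarith
  have h9 : (R - 1) * (ε / (2 * R)) < ε := by
    rw [mul_div_assoc', div_lt_iff₀ (by positivity)]
    nlinarith
  rw [abs_lt]
  constructor
  · rw [lt_sub_iff_add_lt, lt_div_iff₀ hNpos]
    refine lt_of_lt_of_le ?_ h7
    have h10 : N - (R - 1) * ((1 / R + ε / (2 * R)) * N)
        = (1 / R - (R - 1) * (ε / (2 * R))) * N := by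
      field_simp
      ring
    rw [h10]
    apply mul_lt_mul_of_pos_right _ hNpos
    linarith
  · rw [sub_lt_iff_lt_add, div_lt_iff₀ hNpos]
    refine lt_of_le_of_lt h6 ?_
    apply mul_lt_mul_of_pos_right _ hNpos
    linarith

end MP798203
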