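import Mathlib

/-! Exponential `ee x = exp (2 π i x)` and the averaging bound for one noisy digit. -/

namespace MP798203

open Complex Real

/-- `ee x = exp (2 π i x)`. -/
noncomputable def ee (x : ℝ) : ℂ := Complex.exp (((2 * π * x : ℝ) : ℂ) * Complex.I)

lemma ee_zero : ee 0 = 1 := by simp [ee]

lemma norm_ee (x : ℝ) : ‖ee x‖ = 1 := by
  unfold ee
  exact Complex.norm_exp_ofReal_mul_I _

lemma ee_add (x y : ℝ) : ee (x + y) = ee x * ee y := by
  unfold ee
  rw [← Complex.exp_add]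
  congr 1
  push_cast
  ring

lemma ee_neg (x : ℝ) : ee (-x) = (starRingEnd ℂ) (ee x) := by
  unfold ee
  rw [← Complex.exp_conj]
  congr 1
  simp only [map_mul, Complex.conj_ofReal, Complex.conj_I]
  push_cast
  ring

lemma ee_sub (x y : ℝ) : ee (x - y) = ee x * (starRingEnd ℂ) (ee y) := by
  rw [sub_eq_add_neg, ee_add, ee_neg]

lemma ee_int (m : ℤ) : ee m = 1 := by
  unfold ee
  rw [Complex.exp_eq_one_iff]
  refine ⟨m, ?_⟩
  push_cast
  ring

lemma ee_nat (m : ℕ) : ee m = 1 := by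
  have := ee_int (m : ℤ)
  simpa using this

lemma ee_add_int (x : ℝ) (m : ℤ) : ee (x + m) = ee x := by
  rw [ee_add, ee_int, mul_one]

lemma ee_sub_int (x : ℝ) (m : ℤ) : ee (x - m) = ee x := by
  have := ee_add_int x (-m)
  push_cast at this
  rw [← this]
  congr 1

lemma ee_sum {ι : Type*} (s : Finset ι) (f : ι → ℝ) :
    ee (∑ i ∈ s, f i) = ∏ i ∈ s, ee (f i) := by
  classical
  induction s using Finset.induction_on with
  | empty => simp [ee_zero]
  | insert a s ha ih => rw [Finset.sum_insert ha, Finset.prod_insert ha, ee_add, ih]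

lemma norm_ee_sub_le (x y : ℝ) : ‖ee x - ee y‖ ≤ 2 * π * |x - y| := by
  have h1 : ee x - ee y = ee y * (ee (x - y) - 1) := by
    have : ee x = ee y * ee (x - y) := by rw [← ee_add]; congr 1; ring
    rw [this]; ring
  rw [h1, norm_mul, norm_ee, one_mul]
  unfold ee
  have h2 := Real.norm_exp_I_mul_ofReal_sub_one_le (x := 2 * π * (x - y))
  have h3 : Complex.I * ((2 * π * (x - y) : ℝ) : ℂ) = ((2 * π * (x - y) : ℝ) : ℂ) * Complex.I := by
    ring
  rw [h3] at h2
  refine h2.trans (le_of_eq ?_)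
  rw [Real.norm_eq_abs, abs_mul, abs_of_nonneg (by positivity : (0:ℝ) ≤ 2 * π)]

/-- `Far κ t`: the distance from `t` to every integer is at least `κ`. -/
def Far (κ t : ℝ) : Prop := ∀ m : ℤ, κ ≤ |t - m|

lemma Far.neg {κ t : ℝ} (h : Far κ t) : Far κ (-t) := by
  intro m
  have := h (-m)
  push_cast at this
  rw [show -t - (m:ℝ) = -(t - -(m:ℝ)) by ring, abs_neg]
  exact this

lemma Far.perturb {κ η t s : ℝ} (h : Far κ t) (hs : |s| ≤ η) : Far (κ - η) (t - s) := by
  intro m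
  have h1 := h m
  have h2 : |t - m| ≤ |t - s - m| + |s| := by
    have : t - m = (t - s - m) + s := by ring
    rw [this]; exact abs_add_le _ _
  linarith

lemma cos_le_of_far {κ t : ℝ} (h0 : 0 ≤ κ) (h : Far κ t) :
    Real.cos (2 * π * t) ≤ 1 - 8 * κ ^ 2 := by
  -- reduce to |u| ≤ 1/2
  set m : ℤ := round t with hm
  set u : ℝ := t - m with hu
  have hu2 : |u| ≤ 1 / 2 := abs_sub_round t
  have hk : κ ≤ |u| := h m
  have h1 : Real.cos (2 * π * t) = Real.cos (2 * π * u) := by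
    have : 2 * π * t = 2 * π * u + m * (2 * π) := by rw [hu]; ring
    rw [this, Real.cos_add_int_mul_two_pi]
  rw [h1]
  have h2 : Real.cos (2 * π * u) = 1 - 2 * Real.sin (π * u) ^ 2 := by
    have : 2 * π * u = 2 * (π * u) := by ring
    rw [this, Real.cos_two_mul, ← Real.cos_sq_add_sin_sq (π * u)]
    nlinarith [Real.cos_sq_add_sin_sq (π * u)]
  have h3 : 2 * |u| ≤ |Real.sin (π * u)| := by
    have hp : 0 < π := Real.pi_pos
    have h4 : |Real.sin (π * u)| = Real.sin (π * |u|) := by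
      rcases le_total 0 u with hu0 | hu0
      · rw [abs_of_nonneg hu0, abs_of_nonneg]
        apply Real.sin_nonneg_of_nonneg_of_le_pi (by positivity)
        have : u ≤ 1 / 2 := (abs_le.mp hu2).2
        nlinarith
      · rw [abs_of_nonpos hu0, mul_neg, Real.sin_neg, abs_of_nonpos]
        have h5 : 0 ≤ Real.sin (π * -u) := by
          apply Real.sin_nonneg_of_nonneg_of_le_pi
          · nlinarith
          · have : -(1 / 2) ≤ u := (abs_le.mp hu2).1
            nlinarith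
        rw [mul_neg, Real.sin_neg] at h5
        linarith
    rw [h4]
    have h6 := Real.mul_le_sin (x := π * |u|) (by positivity) (by nlinarith [abs_nonneg u])
    have h7 : 2 / π * (π * |u|) = 2 * |u| := by field_simp
    rw [h7] at h6
    exact h6
  have h8 : (2 * κ) ^ 2 ≤ Real.sin (π * u) ^ 2 := by
    rw [← sq_abs (Real.sin (π * u))]
    apply pow_le_pow_left₀ (by positivity)
    linarith
  rw [h2]
  nlinarith

/-- the contraction factor of one noisy digit -/
noncomputable def theta (q : ℕ) (κ : ℝ) : ℝ :=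
  Real.sqrt (1 - 16 * (1 / q) * (1 - 1 / q) * κ ^ 2)

lemma theta_nonneg (q : ℕ) (κ : ℝ) : 0 ≤ theta q κ := Real.sqrt_nonneg _

lemma theta_lt_one {q : ℕ} (hq : 2 ≤ q) {κ : ℝ} (hκ : 0 < κ) : theta q κ < 1 := by
  unfold theta
  have hq' : (2:ℝ) ≤ q := by exact_mod_cast hq
  have h1 : (0:ℝ) < 1 / q := by positivity
  have h2 : (1:ℝ) / q ≤ 1 / 2 := by
    apply one_div_le_one_div_of_le (by norm_num) hq'
  by_cases h : 0 ≤ 1 - 16 * (1 / (q:ℝ)) * (1 - 1 / q) * κ ^ 2
  · have h3 : 0 < 16 * (1 / (q:ℝ)) * (1 - 1 / q) * κ ^ 2 := by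
      have : 0 < 1 - 1 / (q:ℝ) := by linarith
      positivity
    calc _ < Real.sqrt 1 := Real.sqrt_lt_sqrt h (by linarith)
      _ = 1 := Real.sqrt_one
  · push Not at h
    rw [Real.sqrt_eq_zero_of_nonpos h.le]
    simp

lemma norm_avg_le {q : ℕ} (hq : 2 ≤ q) {κ t : ℝ} (h0 : 0 ≤ κ) (h : Far κ t) :
    ‖((q : ℂ) - 1 + ee t)‖ ≤ q * theta q κ := by
  have hq' : (2:ℝ) ≤ q := by exact_mod_cast hq
  have h1 : ‖((q : ℂ) - 1 + ee t)‖ ^ 2 = (q - 1) ^ 2 + 1 + 2 * (q - 1) * Real.cos (2 * π * t) := by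
    rw [← Complex.normSq_eq_norm_sq, Complex.normSq_apply]
    have hre : ((q : ℂ) - 1 + ee t).re = q - 1 + Real.cos (2 * π * t) := by
      rw [Complex.add_re, ee, Complex.exp_ofReal_mul_I_re]
      simp
    have him : ((q : ℂ) - 1 + ee t).im = Real.sin (2 * π * t) := by
      rw [Complex.add_im, ee, Complex.exp_ofReal_mul_I_im]
      simp
    rw [hre, him]
    nlinarith [Real.cos_sq_add_sin_sq (2 * π * t)]
  have h2 := cos_le_of_far h0 h
  have h3 : ‖((q : ℂ) - 1 + ee t)‖ ^ 2 ≤ q ^ 2 * (1 - 16 * (1 / q) * (1 - 1 / q) * κ ^ 2) := by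
    rw [h1]
    have h4 : (q:ℝ) ^ 2 * (1 - 16 * (1 / q) * (1 - 1 / q) * κ ^ 2) = q ^ 2 - 16 * (q - 1) * κ ^ 2 := by
      field_simp
    rw [h4]
    nlinarith
  have h5 : ‖((q : ℂ) - 1 + ee t)‖ ≤ Real.sqrt (q ^ 2 * (1 - 16 * (1 / q) * (1 - 1 / q) * κ ^ 2)) :=
    Real.le_sqrt_of_sq_le h3
  refine h5.trans (le_of_eq ?_)
  rw [Real.sqrt_mul (by positivity), Real.sqrt_sq (by positivity)]
  rfl

lemma norm_avg_le_one {q : ℕ} (hq : 1 ≤ q) (t : ℝ) :
    ‖((q : ℂ) - 1 + ee t)‖ ≤ q := by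
  have hq' : (1:ℝ) ≤ q := by exact_mod_cast hq
  calc ‖((q : ℂ) - 1 + ee t)‖ ≤ ‖((q : ℂ) - 1)‖ + ‖ee t‖ := norm_add_le _ _
    _ = (q - 1) + 1 := by
        rw [norm_ee]
        congr 1
        have : ((q : ℂ) - 1) = ((q - 1 : ℝ) : ℂ) := by push_cast; ring
        rw [this, Complex.norm_real, Real.norm_eq_abs, abs_of_nonneg (by linarith)]
    _ = q := by ring

end MP798203
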