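import Pool.Agent.Lib.MP_798203_nt.Exp

/-! For irrational `β`, infinitely many `β r^s` stay away from the integers. -/

namespace MP798203

open Real

lemma irr_frequently {r : ℕ} (hr : 2 ≤ r) {β : ℝ} (hβ : Irrational β) (S : ℕ) :
    ∃ s, S ≤ s ∧ Far (1 / (2 * r)) (β * (r:ℝ) ^ s) := by
  by_contra hcon
  push Not at hcon
  have hr' : (2:ℝ) ≤ r := by exact_mod_cast hr
  have hr0 : (0:ℝ) < r := by linarith
  have h1 : ∀ s, S ≤ s → ∃ m : ℤ, |β * (r:ℝ) ^ s - m| < 1 / (2 * r) := by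
    intro s hs
    have := hcon s hs
    unfold Far at this
    push Not at this
    exact this
  obtain ⟨m, hm⟩ := h1 S le_rfl
  have h2 : ∀ j : ℕ, |β * (r:ℝ) ^ (S + j) - (r:ℝ) ^ j * m| < 1 / (2 * r) := by
    intro j
    induction j with
    | zero => simpa using hm
    | succ j ih =>
      obtain ⟨m', hm'⟩ := h1 (S + (j + 1)) (by omega)
      have h3 : |β * (r:ℝ) ^ (S + (j + 1)) - (r:ℝ) ^ (j + 1) * m| < 1 / 2 := by
        have h4 : β * (r:ℝ) ^ (S + (j + 1)) - (r:ℝ) ^ (j + 1) * m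
            = r * (β * (r:ℝ) ^ (S + j) - (r:ℝ) ^ j * m) := by
          rw [← add_assoc, pow_succ, pow_succ]; ring
        rw [h4, abs_mul, abs_of_pos hr0]
        calc (r:ℝ) * |β * (r:ℝ) ^ (S + j) - (r:ℝ) ^ j * m| < r * (1 / (2 * r)) :=
              mul_lt_mul_of_pos_left ih hr0
          _ = 1 / 2 := by field_simp
      have h5 : |((m' - (r:ℤ) ^ (j + 1) * m : ℤ) : ℝ)| < 1 := by
        push_cast
        have h6 : (m' : ℝ) - (r:ℝ) ^ (j + 1) * m
            = (β * (r:ℝ) ^ (S + (j + 1)) - (r:ℝ) ^ (j + 1) * m)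
              - (β * (r:ℝ) ^ (S + (j + 1)) - m') := by ring
        rw [h6]
        have h7 := abs_sub (β * (r:ℝ) ^ (S + (j + 1)) - (r:ℝ) ^ (j + 1) * m)
          (β * (r:ℝ) ^ (S + (j + 1)) - m')
        have h8 : (1:ℝ) / (2 * r) ≤ 1 / 4 := by
          apply one_div_le_one_div_of_le (by norm_num) (by linarith)
        linarith
      have h9 : m' - (r:ℤ) ^ (j + 1) * m = 0 := by
        rw [← Int.abs_lt_one_iff]
        exact_mod_cast h5
      have h10 : (m' : ℝ) = (r:ℝ) ^ (j + 1) * m := by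
        have : m' = (r:ℤ) ^ (j + 1) * m := by linarith
        rw [this]; push_cast; ring
      rw [← h10]
      exact hm'
  have h11 : β * (r:ℝ) ^ S - m = 0 := by
    by_contra hne
    have hpos : 0 < |β * (r:ℝ) ^ S - m| := abs_pos.mpr hne
    obtain ⟨j, hj⟩ := pow_unbounded_of_one_lt (1 / |β * (r:ℝ) ^ S - m|) (by linarith : (1:ℝ) < r)
    have h12 := h2 j
    have h13 : β * (r:ℝ) ^ (S + j) - (r:ℝ) ^ j * m = (r:ℝ) ^ j * (β * (r:ℝ) ^ S - m) := by
      rw [pow_add]; ring
    rw [h13, abs_mul, abs_of_pos (by positivity)] at h12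
    have h14 : 1 < (r:ℝ) ^ j * |β * (r:ℝ) ^ S - m| := by
      rwa [div_lt_iff₀ hpos] at hj
    have h15 : (1:ℝ) / (2 * r) ≤ 1 / 4 := by
      apply one_div_le_one_div_of_le (by norm_num) (by linarith)
    linarith
  apply hβ
  refine ⟨(m : ℚ) / (r:ℚ) ^ S, ?_⟩
  push_cast
  rw [div_eq_iff (by positivity)]
  linarith

lemma irr_count {r : ℕ} (hr : 2 ≤ r) {β : ℝ} (hβ : Irrational β) (G : ℕ) :
    ∃ K : ℕ, ∃ T : Finset ℕ, T ⊆ Finset.range K ∧ G ≤ T.card ∧
      ∀ s ∈ T, Far (1 / (2 * r)) (β * (r:ℝ) ^ s) := by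
  induction G with
  | zero => exact ⟨0, ∅, by simp, by simp, by simp⟩
  | succ G ih =>
    obtain ⟨K, T, hT, hG, hF⟩ := ih
    obtain ⟨s, hs, hs2⟩ := irr_frequently hr hβ K
    refine ⟨s + 1, insert s T, ?_, ?_, ?_⟩
    · intro a ha
      rw [Finset.mem_insert] at ha
      rcases ha with rfl | ha
      · simp
      · have := Finset.mem_range.mp (hT ha)
        rw [Finset.mem_range]; omega
    · rw [Finset.card_insert_of_notMem]
      · omega
      · intro h
        have := Finset.mem_range.mp (hT h)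
        omega
    · intro a ha
      rw [Finset.mem_insert] at ha
      rcases ha with rfl | ha
      · exact hs2
      · exact hF a ha

end MP798203
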