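import Pool.Agent.Lib.MP_798203_nt.Exp

/-! Weyl criterion (upper bound for balls on the circle). -/

namespace MP798203

open Real Finset Filter MeasureTheory Topology

local instance : Fact ((0:ℝ) < 1) := ⟨one_pos⟩

abbrev TT := AddCircle (1:ℝ)

lemma fourier_eq (h : ℤ) (x : ℝ) : fourier h (x : TT) = ee (h * x) := by
  rw [fourier_coe_apply, ee]
  congr 1
  push_cast
  ring

lemma norm_sum_ee_neg (s : Finset ℕ) (v : ℕ → ℝ) :
    ‖∑ n ∈ s, ee (-(v n))‖ = ‖∑ n ∈ s, ee (v n)‖ := by
  have : ∑ n ∈ s, ee (-(v n)) = (starRingEnd ℂ) (∑ n ∈ s, ee (v n)) := by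
    rw [map_sum]
    apply Finset.sum_congr rfl
    intro n _
    rw [ee_neg]
  rw [this, Complex.norm_conj]

lemma integrable_cont (f : C(TT, ℂ)) : Integrable (fun t => f t) (volume : Measure TT) :=
  f.continuous.integrable_of_hasCompactSupport (HasCompactSupport.of_compactSpace f)

lemma integral_fourier_ne {h : ℤ} (hh : h ≠ 0) : ∫ t : TT, fourier h t = 0 :=
  integral_eq_zero_of_add_right_eq_neg (μ := (volume : Measure TT))
      (fourier_add_half_inv_index hh one_pos)

/-- the averages along `u` -/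
noncomputable def Avg (u : ℕ → ℝ) (N : ℕ) (f : C(TT, ℂ)) : ℂ :=
  (∑ n ∈ range N, f ((u n : ℝ) : TT)) / N

lemma Avg_add (u : ℕ → ℝ) (N : ℕ) (f g : C(TT, ℂ)) : Avg u N (f + g) = Avg u N f + Avg u N g := by
  unfold Avg
  simp only [ContinuousMap.add_apply]
  rw [Finset.sum_add_distrib, add_div]

lemma Avg_smul (u : ℕ → ℝ) (N : ℕ) (c : ℂ) (f : C(TT, ℂ)) : Avg u N (c • f) = c * Avg u N f := by
  unfold Avg
  simp only [ContinuousMap.smul_apply, smul_eq_mul]
  rw [← Finset.mul_sum, mul_div_assoc]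

lemma Avg_sub (u : ℕ → ℝ) (N : ℕ) (f g : C(TT, ℂ)) : Avg u N (f - g) = Avg u N f - Avg u N g := by
  unfold Avg
  simp only [ContinuousMap.sub_apply]
  rw [Finset.sum_sub_distrib, sub_div]

lemma norm_Avg_le (u : ℕ → ℝ) (N : ℕ) (f : C(TT, ℂ)) : ‖Avg u N f‖ ≤ ‖f‖ := by
  unfold Avg
  rcases Nat.eq_zero_or_pos N with rfl | hN
  · simp
  · rw [norm_div, Complex.norm_natCast, div_le_iff₀ (by exact_mod_cast hN)]
    refine (norm_sum_le _ _).trans ?_
    calc ∑ n ∈ range N, ‖f ((u n : ℝ) : TT)‖ ≤ ∑ _n ∈ range N, ‖f‖ :=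
          Finset.sum_le_sum (fun n _ => f.norm_coe_le_norm _)
      _ = ‖f‖ * N := by rw [Finset.sum_const, card_range, nsmul_eq_mul]; ring

lemma avg_span (u : ℕ → ℝ)
    (hu : ∀ h : ℕ, 1 ≤ h → Tendsto (fun N : ℕ => ‖∑ n ∈ range N, ee (h * u n)‖ / N) atTop (𝓝 0))
    (f : C(TT, ℂ)) (hf : f ∈ Submodule.span ℂ (Set.range (@fourier (1:ℝ)))) :
    Tendsto (fun N : ℕ => Avg u N f) atTop (𝓝 (∫ t : TT, f t)) := by
  induction hf using Submodule.span_induction with
  | mem f hf =>
    obtain ⟨h, rfl⟩ := hf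
    by_cases hh : h = 0
    · subst hh
      have h1 : ∀ t : TT, fourier 0 t = 1 := fun t => fourier_zero
      simp only [h1]
      have h2 : ∫ _t : TT, (1:ℂ) = 1 := by
        simp [Measure.real]
      rw [h2]
      apply tendsto_const_nhds.congr'
      filter_upwards [eventually_gt_atTop 0] with N hN
      unfold Avg
      simp only [h1]
      rw [Finset.sum_const, card_range, nsmul_eq_mul, mul_one, div_self]
      exact_mod_cast hN.ne'
    · rw [integral_fourier_ne hh, tendsto_zero_iff_norm_tendsto_zero]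
      have h3 : ∀ N, ‖Avg u N (fourier h)‖ = ‖∑ n ∈ range N, ee ((h.natAbs : ℕ) * u n)‖ / N := by
        intro N
        unfold Avg
        simp only [fourier_eq]
        rw [norm_div, Complex.norm_natCast]
        congr 1
        rcases Int.natAbs_eq h with h4 | h4
        · have : (h:ℝ) = (h.natAbs : ℝ) := by
            rw [← Int.cast_natCast]; exact_mod_cast h4
          rw [this]
        · have : (h:ℝ) = -(h.natAbs : ℝ) := by
            rw [← Int.cast_natCast]; exact_mod_cast h4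
          rw [this]
          simp only [neg_mul]
          rw [norm_sum_ee_neg]
      simp_rw [h3]
      apply hu
      exact Int.natAbs_pos.mpr hh
  | zero =>
    simp only [ContinuousMap.zero_apply, integral_zero]
    have : ∀ N, Avg u N (0 : C(TT, ℂ)) = 0 := by
      intro N; simp [Avg]
    simp_rw [this]
    exact tendsto_const_nhds
  | add f g _ _ hf hg =>
    have h1 : ∫ t : TT, (f + g) t = (∫ t : TT, f t) + ∫ t : TT, g t := by
      simp only [ContinuousMap.add_apply]
      exact integral_add (integrable_cont f) (integrable_cont g)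
    rw [h1]
    simp_rw [Avg_add]
    exact hf.add hg
  | smul c f _ hf =>
    have h1 : ∫ t : TT, (c • f) t = c * (∫ t : TT, f t) := by
      simp only [ContinuousMap.smul_apply, smul_eq_mul]
      exact integral_const_mul c _
    rw [h1]
    simp_rw [Avg_smul]
    exact hf.const_mul c

lemma norm_integral_le_norm (f : C(TT, ℂ)) : ‖∫ t : TT, f t‖ ≤ ‖f‖ := by
  have h1 := norm_integral_le_of_norm_le_const (μ := (volume : Measure TT)) (f := fun t => f t)
    (C := ‖f‖) (Eventually.of_forall (fun t => f.norm_coe_le_norm t))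
  simpa [Measure.real] using h1

theorem avg_tendsto (u : ℕ → ℝ)
    (hu : ∀ h : ℕ, 1 ≤ h → Tendsto (fun N : ℕ => ‖∑ n ∈ range N, ee (h * u n)‖ / N) atTop (𝓝 0))
    (f : C(TT, ℂ)) :
    Tendsto (fun N : ℕ => Avg u N f) atTop (𝓝 (∫ t : TT, f t)) := by
  rw [Metric.tendsto_atTop]
  intro ε hε
  have hf : f ∈ (Submodule.span ℂ (Set.range (@fourier (1:ℝ)))).topologicalClosure := by
    rw [span_fourier_closure_eq_top]; trivial
  rw [← SetLike.mem_coe, Submodule.topologicalClosure_coe, Metric.mem_closure_iff] at hf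
  obtain ⟨P, hP, hd⟩ := hf (ε / 4) (by positivity)
  have hPt := avg_span u hu P hP
  rw [Metric.tendsto_atTop] at hPt
  obtain ⟨N0, hN0⟩ := hPt (ε / 4) (by positivity)
  refine ⟨N0, fun N hN => ?_⟩
  have h1 := hN0 N hN
  rw [dist_eq_norm] at h1 hd ⊢
  have h2 := norm_Avg_le u N (f - P)
  rw [Avg_sub] at h2
  have h3 := norm_integral_le_norm (f - P)
  have h4 : ∫ t : TT, (f - P) t = (∫ t : TT, f t) - ∫ t : TT, P t := by
    simp only [ContinuousMap.sub_apply]
    exact integral_sub (integrable_cont f) (integrable_cont P)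
  rw [h4] at h3
  have h5 : Avg u N f - ∫ t : TT, f t = (Avg u N f - Avg u N P) + (Avg u N P - ∫ t : TT, P t)
      - ((∫ t : TT, f t) - ∫ t : TT, P t) := by ring
  rw [h5]
  calc _ ≤ ‖(Avg u N f - Avg u N P) + (Avg u N P - ∫ t : TT, P t)‖
        + ‖(∫ t : TT, f t) - ∫ t : TT, P t‖ := norm_sub_le _ _
    _ ≤ ‖Avg u N f - Avg u N P‖ + ‖Avg u N P - ∫ t : TT, P t‖
        + ‖(∫ t : TT, f t) - ∫ t : TT, P t‖ := by
          gcongr; exact norm_add_le _ _
    _ < ε := by linarith

/-- a continuous cut-off of the ball of radius `ρ` around `c`. -/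
noncomputable def gr (c : TT) (ρ ε : ℝ) (t : TT) : ℝ := max 0 (1 - (max 0 (dist t c - ρ)) / ε)

lemma gr_cont (c : TT) (ρ ε : ℝ) : Continuous (gr c ρ ε) := by
  unfold gr
  fun_prop

noncomputable def gc (c : TT) (ρ ε : ℝ) : C(TT, ℂ) :=
  ⟨fun t => ((gr c ρ ε t : ℝ) : ℂ), Complex.continuous_ofReal.comp (gr_cont c ρ ε)⟩

lemma gr_nonneg (c : TT) (ρ ε : ℝ) (t : TT) : 0 ≤ gr c ρ ε t := le_max_left _ _

lemma gr_eq_one {c : TT} {ρ ε : ℝ} {t : TT} (h : dist t c ≤ ρ) : gr c ρ ε t = 1 := by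
  unfold gr
  rw [max_eq_left (by linarith : dist t c - ρ ≤ 0)]
  simp

lemma gr_le_indicator {c : TT} {ρ ε : ℝ} (hε : 0 < ε) (t : TT) :
    gr c ρ ε t ≤ (Metric.closedBall c (ρ + ε)).indicator (fun _ => (1:ℝ)) t := by
  by_cases h : t ∈ Metric.closedBall c (ρ + ε)
  · rw [Set.indicator_of_mem h]
    unfold gr
    apply max_le (by norm_num)
    have : 0 ≤ (max 0 (dist t c - ρ)) / ε := by positivity
    linarith
  · rw [Set.indicator_of_notMem h]
    rw [Metric.mem_closedBall] at h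
    push Not at h
    unfold gr
    apply max_le le_rfl
    have h1 : ε ≤ max 0 (dist t c - ρ) := le_trans (by linarith) (le_max_right _ _)
    have h2 : 1 ≤ (max 0 (dist t c - ρ)) / ε := by
      rw [le_div_iff₀ hε]; linarith
    linarith

lemma integral_gr_le {c : TT} {ρ ε : ℝ} (hρ : 0 ≤ ρ) (hε : 0 < ε) :
    ∫ t : TT, gr c ρ ε t ≤ 2 * (ρ + ε) := by
  calc ∫ t : TT, gr c ρ ε t
      ≤ ∫ t : TT, (Metric.closedBall c (ρ + ε)).indicator (fun _ => (1:ℝ)) t := by
        apply integral_mono_of_nonneg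
        · exact Eventually.of_forall (fun t => gr_nonneg _ _ _ _)
        · exact (integrable_const (1:ℝ)).indicator measurableSet_closedBall
        · exact Eventually.of_forall (fun t => gr_le_indicator hε t)
    _ = (volume : Measure TT).real (Metric.closedBall c (ρ + ε)) := by
        rw [integral_indicator_const (1:ℝ) measurableSet_closedBall]
        simp
    _ ≤ 2 * (ρ + ε) := by
        rw [Measure.real, AddCircle.volume_closedBall]
        apply ENNReal.toReal_le_of_le_ofReal (by positivity)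
        exact ENNReal.ofReal_le_ofReal (min_le_right _ _)

theorem ball_upper (u : ℕ → ℝ)
    (hu : ∀ h : ℕ, 1 ≤ h → Tendsto (fun N : ℕ => ‖∑ n ∈ range N, ee (h * u n)‖ / N) atTop (𝓝 0))
    (c : TT) {ρ : ℝ} (hρ : 0 ≤ ρ) {η : ℝ} (hη : 0 < η) (P : ℕ → Prop) [DecidablePred P]
    (hP : ∀ n, P n → dist ((u n : ℝ) : TT) c ≤ ρ) :
    ∀ᶠ N : ℕ in atTop, (((range N).filter P).card : ℝ) ≤ (2 * ρ + η) * N := by
  have h1 := avg_tendsto u hu (gc c ρ (η / 4))
  have h2 : ∫ t : TT, gc c ρ (η / 4) t = ((∫ t : TT, gr c ρ (η / 4) t : ℝ) : ℂ) := by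
    rw [← integral_complex_ofReal]
    rfl
  rw [h2] at h1
  have h3 := (Complex.continuous_re.tendsto _).comp h1
  rw [Complex.ofReal_re] at h3
  have h4 : ∀ N : ℕ, (Avg u N (gc c ρ (η / 4))).re
      = (∑ n ∈ range N, gr c ρ (η / 4) ((u n : ℝ) : TT)) / N := by
    intro N
    have : Avg u N (gc c ρ (η / 4))
        = (((∑ n ∈ range N, gr c ρ (η / 4) ((u n : ℝ) : TT)) / N : ℝ) : ℂ) := by
      unfold Avg
      push_cast
      rfl
    rw [this, Complex.ofReal_re]
  have h5 := integral_gr_le (c := c) hρ (by positivity : 0 < η / 4)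
  have h6 : ∀ᶠ N : ℕ in atTop, (∑ n ∈ range N, gr c ρ (η / 4) ((u n : ℝ) : TT)) / N
      < 2 * ρ + η := by
    have h7 : ∫ t : TT, gr c ρ (η / 4) t < 2 * ρ + η := by linarith
    have h8 := h3.eventually (gt_mem_nhds h7)
    filter_upwards [h8] with N hN
    have := h4 N
    simp only [Function.comp_apply] at hN
    rw [this] at hN
    exact hN
  filter_upwards [h6, eventually_gt_atTop 0] with N hN hN0
  have hN0' : (0:ℝ) < N := by exact_mod_cast hN0
  rw [div_lt_iff₀ hN0'] at hN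
  refine le_trans ?_ hN.le
  rw [Finset.card_filter]
  push_cast
  apply Finset.sum_le_sum
  intro n _
  split_ifs with h
  · rw [gr_eq_one (hP n h)]
  · exact gr_nonneg _ _ _ _

end MP798203
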