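import Pool.Agent.Lib.MP_798203_nt.Dig

/-! A normal number satisfies the Weyl criterion. -/

namespace MP798203

open Real Finset Filter Topology

lemma ee_eq_one {t : ℝ} (h : ee t = 1) : ∃ n : ℤ, t = n := by
  unfold ee at h
  rw [Complex.exp_eq_one_iff] at h
  obtain ⟨n, hn⟩ := h
  refine ⟨n, ?_⟩
  have h1 : ((2 * π * t : ℝ) : ℂ) = ((2 * π * n : ℝ) : ℂ) := by
    have h2 : ((2 * π * t : ℝ) : ℂ) * Complex.I = ((2 * π * n : ℝ) : ℂ) * Complex.I := by
      rw [hn]; push_cast; ring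
    exact mul_right_cancel₀ Complex.I_ne_zero h2
  have h3 : 2 * π * t = 2 * π * n := by exact_mod_cast h1
  have hpi : (2 * π) ≠ 0 := by positivity
  exact mul_left_cancel₀ hpi h3

lemma ee_nat_mul (c : ℕ) (t : ℝ) : ee (c * t) = ee t ^ c := by
  induction c with
  | zero => simp [ee_zero]
  | succ c ih => rw [pow_succ, ← ih, ← ee_add]; congr 1; push_cast; ring

lemma geom_zero {m : ℕ} (hm : 0 < m) (D : ℤ) (hD : ¬ (m : ℤ) ∣ D) :
    ∑ c ∈ range m, ee (D * c / m) = 0 := by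
  have hm' : (0:ℝ) < m := by exact_mod_cast hm
  have h1 : ∀ c ∈ range m, ee (D * c / m) = ee (D / m) ^ c := by
    intro c _
    rw [← ee_nat_mul]
    congr 1
    ring
  rw [Finset.sum_congr rfl h1]
  have hne : ee ((D:ℝ) / m) ≠ 1 := by
    intro h
    obtain ⟨n, hn⟩ := ee_eq_one h
    apply hD
    refine ⟨n, ?_⟩
    rw [div_eq_iff hm'.ne'] at hn
    have : (D:ℝ) = ((m * n : ℤ) : ℝ) := by rw [hn]; push_cast; ring
    exact_mod_cast this
  have h2 := geom_sum_mul (ee ((D:ℝ) / m)) m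
  have h3 : ee ((D:ℝ) / m) ^ m = 1 := by
    rw [← ee_nat_mul]
    have : (m:ℝ) * ((D:ℝ) / m) = (D:ℤ) := by field_simp
    rw [this, ee_int]
  rw [h3, sub_self] at h2
  rcases mul_eq_zero.mp h2 with h | h
  · exact h
  · exact absurd (sub_eq_zero.mp h) hne

/-- the word of length `k` at position `n`. -/
noncomputable def wd (r : ℕ) [NeZero r] (x : ℝ) (k n : ℕ) : Fin k → Fin r :=
  fun i => Real.digits (Int.fract x) r (n + i)

lemma ee_word {r : ℕ} [NeZero r] (hr : 2 ≤ r) (x : ℝ) (k n h : ℕ) :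
    ‖ee (h * ((r:ℝ) ^ n * x)) - ee (h * cw (wd r x k n))‖ ≤ π * h / (r:ℝ) ^ k := by
  have hr0 : (0:ℝ) < r := by exact_mod_cast (by omega : 0 < r)
  have h2 : ∀ i : Fin k, Real.digits (Int.fract ((r:ℝ) ^ n * Int.fract x)) r i = wd r x k n i := by
    intro i
    rw [← digits_shift (Int.fract_nonneg x) n i]
    rfl
  have h3 := word_close hr (wd r x k n) ⟨Int.fract_nonneg _, Int.fract_lt_one _⟩ h2
  have h4 : ee (h * ((r:ℝ) ^ n * x)) = ee (h * Int.fract ((r:ℝ) ^ n * Int.fract x)) := by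
    have h5 : (h:ℝ) * ((r:ℝ) ^ n * x) = h * Int.fract ((r:ℝ) ^ n * Int.fract x)
        + ((h * ((r:ℤ) ^ n * ⌊x⌋ + ⌊(r:ℝ) ^ n * Int.fract x⌋) : ℤ) : ℝ) := by
      push_cast
      have h6 : Int.fract ((r:ℝ) ^ n * Int.fract x)
        = (r:ℝ) ^ n * Int.fract x - ⌊(r:ℝ) ^ n * Int.fract x⌋ := rfl
      rw [h6]
      have h7 : (r:ℝ) ^ n * x = (r:ℝ) ^ n * ⌊x⌋ + (r:ℝ) ^ n * Int.fract x := by
        rw [← mul_add, Int.floor_add_fract]
      rw [h7]
      ring
    rw [h5, ee_add_int]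
  rw [h4]
  refine (norm_ee_sub_le _ _).trans ?_
  rw [← mul_sub, abs_mul, abs_of_nonneg (by positivity : (0:ℝ) ≤ h)]
  calc 2 * π * (h * |Int.fract ((r:ℝ) ^ n * Int.fract x) - cw (wd r x k n)|)
      ≤ 2 * π * (h * (1 / (2 * (r:ℝ) ^ k))) := by gcongr
    _ = π * h / (r:ℝ) ^ k := by field_simp

lemma sum_ee_cw {r : ℕ} (hr : 2 ≤ r) {k h : ℕ} (hh : 1 ≤ h) (hk : h < r ^ k) :
    ∑ w : Fin k → Fin r, ee (h * cw w) = 0 := by
  have hr0 : (0:ℝ) < r := by exact_mod_cast (by omega : 0 < r)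
  -- the critical digit
  have hex : ∃ j, ¬ r ^ j ∣ h := ⟨k, fun hd => by
    have := Nat.le_of_dvd (by omega) hd; omega⟩
  classical
  set j := Nat.find hex with hj
  have hj1 : ¬ r ^ j ∣ h := Nat.find_spec hex
  have hj0 : j ≠ 0 := by
    intro h0
    rw [h0] at hj1
    simp at hj1
  have hjk : j ≤ k := Nat.find_min' hex (fun hd => by
    have := Nat.le_of_dvd (by omega) hd; omega)
  have hj2 : r ^ (j - 1) ∣ h := by
    by_contra hcon
    have := Nat.find_min' hex hcon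
    omega
  obtain ⟨m, hm⟩ := hj2
  have hm2 : ¬ (r : ℤ) ∣ (m : ℤ) := by
    intro hd
    apply hj1
    have hd' : r ∣ m := by exact_mod_cast hd
    obtain ⟨c, hc⟩ := hd'
    refine ⟨c, ?_⟩
    rw [hm, hc]
    have : r ^ j = r ^ (j - 1) * r := by
      rw [← pow_succ]; congr 1; omega
    rw [this]; ring
  have h1 : ∀ w : Fin k → Fin r, ee (h * cw w)
      = ee (h * (1 / (2 * (r:ℝ) ^ k))) *
        ∏ i : Fin k, ee (h * (((w i : ℕ) : ℝ) * ((r:ℝ) ^ ((i:ℕ) + 1))⁻¹)) := by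
    intro w
    unfold cw
    rw [mul_add, ee_add, Finset.mul_sum, ee_sum, mul_comm]
  simp_rw [h1]
  rw [← Finset.mul_sum]
  have h2 := Finset.prod_univ_sum (fun _ : Fin k => (Finset.univ : Finset (Fin r)))
    (fun i c => ee (h * (((c : ℕ) : ℝ) * ((r:ℝ) ^ ((i:ℕ) + 1))⁻¹)))
  rw [Fintype.piFinset_univ] at h2
  rw [← h2]
  have h3 : ∑ c : Fin r, ee (h * (((c : ℕ) : ℝ) * ((r:ℝ) ^ ((j - 1) + 1))⁻¹)) = 0 := by
    rw [Fin.sum_univ_eq_sum_range (fun c => ee (h * ((c : ℝ) * ((r:ℝ) ^ ((j - 1) + 1))⁻¹)))]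
    have h4 := geom_zero (m := r) (by omega) (m : ℤ) hm2
    rw [← h4]
    apply Finset.sum_congr rfl
    intro c _
    congr 1
    rw [hm]
    push_cast
    rw [pow_succ]
    field_simp
  rw [Finset.prod_eq_zero (i := (⟨j - 1, by omega⟩ : Fin k)) (Finset.mem_univ _) h3, mul_zero]

theorem weyl_of_normal {r : ℕ} [NeZero r] (hr : 2 ≤ r) {x : ℝ} (hx : IsNormal r x) {h : ℕ}
    (hh : 1 ≤ h) :
    Tendsto (fun N : ℕ => ‖∑ n ∈ range N, ee (h * ((r:ℝ) ^ n * x))‖ / N) atTop (𝓝 0) := by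
  classical
  have hr0 : (0:ℝ) < r := by exact_mod_cast (by omega : 0 < r)
  have hr1 : (1:ℝ) < r := by exact_mod_cast (by omega : 1 < r)
  rw [Metric.tendsto_atTop']
  intro ε hε
  obtain ⟨k1, hk1⟩ := pow_unbounded_of_one_lt (h : ℝ) hr1
  obtain ⟨k2, hk2⟩ := pow_unbounded_of_one_lt (2 * (π * h) / ε) hr1
  set k := max k1 k2 with hk
  have hkh : h < r ^ k := by
    have : (h:ℝ) < (r:ℝ) ^ k := lt_of_lt_of_le hk1 (pow_le_pow_right₀ hr1.le (le_max_left _ _))
    exact_mod_cast this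
  have hkε : π * h / (r:ℝ) ^ k ≤ ε / 2 := by
    have h1 : 2 * (π * h) / ε < (r:ℝ) ^ k :=
      lt_of_lt_of_le hk2 (pow_le_pow_right₀ hr1.le (le_max_right _ _))
    rw [div_lt_iff₀ hε] at h1
    rw [div_le_iff₀ (by positivity)]
    linarith
  -- step function averages
  have hstep : ∀ N : ℕ, ∑ n ∈ range N, ee (h * cw (wd r x k n))
      = ∑ w : Fin k → Fin r, (((range N).filter
        (fun n => ∀ i : Fin k, Real.digits (Int.fract x) r (n + i) = w i)).card : ℂ)
          * ee (h * cw w) := by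
    intro N
    have h1 := Finset.sum_fiberwise (range N) (fun n => wd r x k n)
      (fun n => ee (h * cw (wd r x k n)))
    rw [← h1]
    apply Finset.sum_congr rfl
    intro w _
    have h2 : (range N).filter (fun n => ∀ i : Fin k, Real.digits (Int.fract x) r (n + i) = w i)
      = (range N).filter (fun n => wd r x k n = w) := by
      apply Finset.filter_congr
      intro n _
      unfold wd
      rw [funext_iff]
    rw [h2]
    have h3 : ∀ n ∈ (range N).filter (fun n => wd r x k n = w),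
        ee (h * cw (wd r x k n)) = ee (h * cw w) := by
      intro n hn
      rw [(Finset.mem_filter.mp hn).2]
    rw [Finset.sum_congr rfl h3, Finset.sum_const, nsmul_eq_mul]
  have hlim : Tendsto (fun N : ℕ => (∑ n ∈ range N, ee (h * cw (wd r x k n))) / N) atTop (𝓝 0) := by
    have h1 : Tendsto (fun N : ℕ => ∑ w : Fin k → Fin r, ((((((range N).filter
        (fun n => ∀ i : Fin k, Real.digits (Int.fract x) r (n + i) = w i)).card : ℝ) / N : ℝ) : ℂ)
          * ee (h * cw w))) atTop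
          (𝓝 (∑ w : Fin k → Fin r, (((1 / (r:ℝ)) ^ k : ℝ) : ℂ) * ee (h * cw w))) := by
      apply tendsto_finsetSum
      intro w _
      exact ((Complex.continuous_ofReal.tendsto _).comp (hx k w)).mul_const _
    rw [← Finset.mul_sum, sum_ee_cw hr hh hkh, mul_zero] at h1
    refine h1.congr (fun N => ?_)
    rw [hstep, Finset.sum_div]
    apply Finset.sum_congr rfl
    intro w _
    push_cast
    ring
  rw [tendsto_zero_iff_norm_tendsto_zero, Metric.tendsto_atTop'] at hlim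
  obtain ⟨N0, hN0⟩ := hlim (ε / 2) (by positivity)
  refine ⟨N0, fun N hN => ?_⟩
  have hNpos : (0:ℝ) < N := by exact_mod_cast (by omega : 0 < N)
  have h1 := hN0 N hN
  rw [dist_zero_right, norm_norm, norm_div, Complex.norm_natCast, div_lt_iff₀ hNpos] at h1
  rw [dist_zero_right, Real.norm_eq_abs, abs_of_nonneg (by positivity), div_lt_iff₀ hNpos]
  have h2 : ∑ n ∈ range N, ee (h * ((r:ℝ) ^ n * x))
      = ∑ n ∈ range N, (ee (h * ((r:ℝ) ^ n * x)) - ee (h * cw (wd r x k n)))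
        + ∑ n ∈ range N, ee (h * cw (wd r x k n)) := by
    rw [← Finset.sum_add_distrib]
    apply Finset.sum_congr rfl
    intro n _
    ring
  rw [h2]
  refine lt_of_le_of_lt (norm_add_le _ _) ?_
  have h3 : ‖∑ n ∈ range N, (ee (h * ((r:ℝ) ^ n * x)) - ee (h * cw (wd r x k n)))‖ ≤ ε / 2 * N := by
    refine (norm_sum_le _ _).trans ?_
    refine (Finset.sum_le_sum (fun n _ => (ee_word hr x k n h).trans hkε)).trans (le_of_eq ?_)
    rw [Finset.sum_const, card_range, nsmul_eq_mul, mul_comm]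
  linarith

end MP798203
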